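import Pool.Agent.TH724.BD.Rec

/-!
# Sets of lower box dimension less than one
-/

set_option autoImplicit false

namespace Pool.Agent.TH724.BD

open Set Topology Cardinal Pool.Agent.H458R5

/-- The lower box dimension of `K` is less than `1`: for some `s < 1` there are arbitrarily
small `δ > 0` such that `K` is covered by at most `δ ^ (-s)` closed intervals of length `δ`. -/
def LowerBoxDimLtOne (K : Set ℝ) : Prop :=
  ∃ s : ℝ, s < 1 ∧ ∀ ε > 0, ∃ δ : ℝ, 0 < δ ∧ δ < ε ∧ ∃ F : Finset ℝ,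
    (F.card : ℝ) ≤ δ ^ (-s) ∧ K ⊆ ⋃ c ∈ F, Icc c (c + δ)

theorem lowerBoxDimLtOne_empty : LowerBoxDimLtOne ∅ :=
  ⟨0, one_pos, fun ε hε => ⟨ε / 2, by positivity, by linarith, ∅, by simp, by simp⟩⟩

theorem real_ineq {q M : ℕ} {s : ℝ} (hs1 : s ≤ 1) (hq : 4 ≤ (1 - s) * q)
    (hM : 3 * 2 ^ q ≤ M) : 3 * (((2 * M : ℕ) : ℝ) ^ q) ^ s * (M : ℝ) ^ 3 ≤ (M : ℝ) ^ q := by
  have hMr : (3 : ℝ) * 2 ^ q ≤ M := by exact_mod_cast hM
  have h1 : (1 : ℝ) ≤ 2 ^ q := one_le_pow₀ (by norm_num)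
  have hM1 : (1 : ℝ) ≤ M := by linarith
  have hM0 : (0 : ℝ) < M := by linarith
  have h2 : (((2 * M : ℕ) : ℝ) ^ q) ^ s = ((2 : ℝ) ^ q) ^ s * (M : ℝ) ^ ((q : ℝ) * s) := by
    push_cast
    rw [mul_pow, Real.mul_rpow (by positivity) (by positivity), Real.rpow_mul hM0.le,
      Real.rpow_natCast]
  have h3 : ((2 : ℝ) ^ q) ^ s ≤ 2 ^ q := by
    have h4 := Real.rpow_le_rpow_of_exponent_le h1 hs1
    rwa [Real.rpow_one] at h4
  have h5 : 0 ≤ (M : ℝ) ^ ((q : ℝ) * s) := Real.rpow_nonneg hM0.le _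
  calc 3 * (((2 * M : ℕ) : ℝ) ^ q) ^ s * (M : ℝ) ^ 3
      = (3 * ((2 : ℝ) ^ q) ^ s) * ((M : ℝ) ^ ((q : ℝ) * s) * (M : ℝ) ^ 3) := by rw [h2]; ring
    _ ≤ M * ((M : ℝ) ^ ((q : ℝ) * s) * (M : ℝ) ^ 3) := by
        refine mul_le_mul_of_nonneg_right ?_ (by positivity)
        linarith
    _ = (M : ℝ) ^ ((q : ℝ) * s + 4) := by
        rw [Real.rpow_add hM0, show ((4 : ℝ)) = ((4 : ℕ) : ℝ) by norm_num, Real.rpow_natCast]
        ring
    _ ≤ (M : ℝ) ^ (q : ℝ) := Real.rpow_le_rpow_of_exponent_le hM1 (by nlinarith)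
    _ = _ := Real.rpow_natCast _ _

theorem scales_of_box {P : Set ℝ} (h : LowerBoxDimLtOne P) :
    ∃ q : ℕ, ∀ i : ℕ, ∃ (M : ℕ) (KS : Finset ℤ), 2 ^ (i + 1) ≤ M ∧ KS.card * M ^ 3 ≤ M ^ q ∧
      ∀ x t : ℝ, x - t ∈ P → ⌊x * ((M ^ q : ℕ) : ℝ)⌋ - ⌊t * ((M ^ q : ℕ) : ℝ)⌋ ∈ KS := by
  classical
  obtain ⟨s0, hs0, hcov⟩ := h
  set s : ℝ := max s0 0 with hs
  have hs1 : s < 1 := max_lt hs0 one_pos
  have hsn : 0 ≤ s := le_max_right _ _
  obtain ⟨q, hq⟩ := exists_nat_ge (4 / (1 - s))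
  have hq4 : 4 ≤ (1 - s) * q := by
    rw [div_le_iff₀ (by linarith)] at hq
    linarith
  have hq0 : q ≠ 0 := by
    rintro rfl
    norm_num at hq4
  refine ⟨q, fun i => ?_⟩
  set N : ℕ := max (2 ^ (i + 1)) (3 * 2 ^ q) with hN
  have hN1 : 1 ≤ N := le_trans Nat.one_le_two_pow (le_max_left _ _)
  obtain ⟨δ, hδ0, hδε, F, hF1, hF2⟩ := hcov (1 / (N : ℝ) ^ q) (by positivity)
  set b : ℝ := 1 / δ with hb
  have hb0 : 0 < b := by positivity
  have hNb : (N : ℝ) ^ q ≤ b := by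
    rw [hb, le_div_iff₀ hδ0]
    have h1 : (0 : ℝ) < (N : ℝ) ^ q := by positivity
    rw [lt_div_iff₀ h1] at hδε
    linarith
  have hb1 : 1 ≤ b := le_trans (one_le_pow₀ (by exact_mod_cast hN1)) hNb
  have hex : ∃ n : ℕ, b < ((n + 1 : ℕ) : ℝ) ^ q := by
    obtain ⟨n, hn⟩ := exists_nat_gt b
    refine ⟨n, ?_⟩
    have h1 : ((n + 1 : ℕ) : ℝ) ≤ ((n + 1 : ℕ) : ℝ) ^ q :=
      le_self_pow₀ (by exact_mod_cast Nat.succ_le_succ (Nat.zero_le n)) hq0
    push_cast at h1 ⊢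
    linarith
  obtain ⟨M, hM1, hM2⟩ : ∃ M : ℕ, b < ((M + 1 : ℕ) : ℝ) ^ q ∧
      ∀ n < M, ¬ b < ((n + 1 : ℕ) : ℝ) ^ q :=
    ⟨Nat.find hex, Nat.find_spec hex, fun n hn => Nat.find_min hex hn⟩
  have hNM : N ≤ M := by
    by_contra hlt
    have h1 : M + 1 ≤ N := by omega
    have h2 : ((M + 1 : ℕ) : ℝ) ^ q ≤ (N : ℝ) ^ q :=
      pow_le_pow_left₀ (by positivity) (by exact_mod_cast h1) q
    linarith
  have hM0 : 1 ≤ M := hN1.trans hNM
  have hMb : (M : ℝ) ^ q ≤ b := by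
    have h1 := hM2 (M - 1) (by omega)
    have h2 : M - 1 + 1 = M := by omega
    rw [h2] at h1
    exact not_lt.1 h1
  set B : ℝ := ((M ^ q : ℕ) : ℝ) with hB
  have hBM : B = (M : ℝ) ^ q := by rw [hB]; push_cast; rfl
  have hBδ : δ * B ≤ 1 := by
    rw [hBM]
    rw [hb, le_div_iff₀ hδ0] at hMb
    linarith
  have hB0 : 0 < B := by
    rw [hBM]
    have : (0 : ℝ) < M := by exact_mod_cast hM0
    positivity
  refine ⟨M, F.biUnion (fun c => Finset.Icc ⌊c * B⌋ (⌊c * B⌋ + 2)),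
    (le_max_left _ _).trans hNM, ?_, ?_⟩
  · have h1 : (F.biUnion (fun c => Finset.Icc ⌊c * B⌋ (⌊c * B⌋ + 2))).card ≤ F.card * 3 := by
      refine Finset.card_biUnion_le_card_mul _ _ _ fun c _ => ?_
      rw [Int.card_Icc]
      have h2 : (⌊c * B⌋ + 2 + 1 - ⌊c * B⌋ : ℤ) = 3 := by ring
      rw [h2]
      rfl
    have h2 : (F.card : ℝ) ≤ (((2 * M : ℕ) : ℝ) ^ q) ^ s := by
      calc (F.card : ℝ) ≤ δ ^ (-s0) := hF1
        _ = b ^ s0 := by
            rw [hb, one_div, Real.inv_rpow hδ0.le, Real.rpow_neg hδ0.le]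
        _ ≤ b ^ s := Real.rpow_le_rpow_of_exponent_le hb1 (le_max_left _ _)
        _ ≤ _ := by
            refine Real.rpow_le_rpow hb0.le ?_ hsn
            refine hM1.le.trans (pow_le_pow_left₀ (by positivity) ?_ q)
            have : M + 1 ≤ 2 * M := by omega
            exact_mod_cast this
    have h3 := real_ineq (q := q) (M := M) hs1.le hq4 ((le_max_right _ _).trans hNM)
    have h4 : ((F.biUnion (fun c => Finset.Icc ⌊c * B⌋ (⌊c * B⌋ + 2))).card : ℝ) ≤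
        F.card * 3 := by exact_mod_cast h1
    have h5 : ((F.biUnion (fun c => Finset.Icc ⌊c * B⌋ (⌊c * B⌋ + 2))).card : ℝ) * (M : ℝ) ^ 3 ≤
        (M : ℝ) ^ q := by
      refine le_trans ?_ h3
      refine mul_le_mul_of_nonneg_right ?_ (by positivity)
      linarith
    exact_mod_cast h5
  · intro x t hxt
    have h1 := hF2 hxt
    simp only [mem_iUnion, mem_Icc, exists_prop] at h1
    obtain ⟨c, hc, h2, h3⟩ := h1
    refine Finset.mem_biUnion.2 ⟨c, hc, ?_⟩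
    change ⌊x * B⌋ - ⌊t * B⌋ ∈ _
    rw [Finset.mem_Icc]
    have e1 := Int.floor_le (x * B)
    have e2 := Int.lt_floor_add_one (x * B)
    have e3 := Int.floor_le (t * B)
    have e4 := Int.lt_floor_add_one (t * B)
    have e5 := Int.floor_le (c * B)
    have e6 := Int.lt_floor_add_one (c * B)
    have e7 : c * B ≤ (x - t) * B := mul_le_mul_of_nonneg_right h2 hB0.le
    have e8 : (x - t) * B ≤ c * B + 1 := by
      have := mul_le_mul_of_nonneg_right h3 hB0.le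
      nlinarith
    constructor
    · have h4 : (⌊c * B⌋ : ℝ) - 1 < (⌊x * B⌋ : ℝ) - ⌊t * B⌋ := by nlinarith
      have h5 : ⌊c * B⌋ - 1 < ⌊x * B⌋ - ⌊t * B⌋ := by exact_mod_cast h4
      omega
    · have h4 : (⌊x * B⌋ : ℝ) - ⌊t * B⌋ < ⌊c * B⌋ + 3 := by nlinarith
      have h5 : ⌊x * B⌋ - ⌊t * B⌋ < ⌊c * B⌋ + 3 := by exact_mod_cast h4
      omega

theorem exists_sys (P : ℕ → Set ℝ) (h : ∀ e, LowerBoxDimLtOne (P e)) :
    ∃ s : Sys, ∀ e i x t, x - t ∈ P e → s.fl e i x - s.fl e i t ∈ s.KS e i := by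
  choose q hq using fun e => scales_of_box (h e)
  choose M KS h1 h2 h3 using hq
  exact ⟨⟨q, M, KS, h1, h2⟩, fun e i x t hxt => h3 e i x t hxt⟩

/-- Each nonempty portion of `K` contains a nonempty portion of lower box dimension less than
`1`. -/
def LocallyBox (K : Set ℝ) : Prop :=
  ∀ O : Set ℝ, IsOpen O → (K ∩ O).Nonempty →
    ∃ O' ⊆ O, IsOpen O' ∧ (K ∩ O').Nonempty ∧ LowerBoxDimLtOne (K ∩ O')

/-- **The main theorem.** -/
theorem smallTraces_of_locallyBox {K : Set ℝ} (hK : IsCantorSet K) (hT : LocallyBox K) :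
    SmallTraces K := by
  classical
  have hb := TopologicalSpace.isBasis_countableBasis ℝ
  obtain ⟨e, he⟩ := ((TopologicalSpace.countable_countableBasis ℝ).insert
    (∅ : Set ℝ)).exists_eq_range (Set.insert_nonempty _ _)
  have h1 : ∀ i, ∃ P : Set ℝ, LowerBoxDimLtOne P ∧ (e i ∈ TopologicalSpace.countableBasis ℝ →
      (K ∩ e i).Nonempty → ∃ O' ⊆ e i, IsOpen O' ∧ (K ∩ O').Nonempty ∧ P = K ∩ O') := by
    intro i
    by_cases hi : e i ∈ TopologicalSpace.countableBasis ℝ ∧ (K ∩ e i).Nonempty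
    · obtain ⟨O', h1, h2, h3, h4⟩ := hT (e i) (hb.isOpen hi.1) hi.2
      exact ⟨K ∩ O', h4, fun _ _ => ⟨O', h1, h2, h3, rfl⟩⟩
    · exact ⟨∅, lowerBoxDimLtOne_empty, fun h2 h3 => absurd ⟨h2, h3⟩ hi⟩
  choose P hP1 hP2 using h1
  obtain ⟨s, hs⟩ := exists_sys P hP1
  obtain ⟨X, hX1, hX2⟩ := s.exists_set' P hs
  refine ⟨X, hX1, fun t => IsNowhereDense.isMeagre ?_⟩
  set A : Set K := {k : K | (k : ℝ) - t ∈ X} with hA
  by_contra hcon
  have hne : (interior (closure A)).Nonempty := Set.nonempty_iff_ne_empty.2 hcon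
  obtain ⟨p, hp⟩ := hne
  obtain ⟨O, hO, hOeq⟩ := isOpen_induced_iff.1 (isOpen_interior : IsOpen (interior (closure A)))
  have hpO : (p : ℝ) ∈ O := by
    have h2 : p ∈ Subtype.val ⁻¹' O := by rw [hOeq]; exact hp
    exact h2
  obtain ⟨b, hb1, hpb, hbO⟩ := hb.exists_subset_of_mem_open hpO hO
  have hbr : b ∈ range e := by rw [← he]; exact Or.inr hb1
  obtain ⟨i, rfl⟩ := hbr
  obtain ⟨O', h1, h2, h3, h4⟩ := hP2 i hb1 ⟨p, p.2, hpb⟩
  set V : Set K := Subtype.val ⁻¹' O' with hV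
  have hVo : IsOpen V := h2.preimage continuous_subtype_val
  have hVsub : V ⊆ closure A := by
    intro k hk
    have h5 : k ∈ Subtype.val ⁻¹' O := hbO (h1 hk)
    rw [hOeq] at h5
    exact interior_subset h5
  have hVne : V.Nonempty := by
    obtain ⟨k, hk1, hk2⟩ := h3
    exact ⟨⟨k, hk1⟩, hk2⟩
  -- the trace on `V` is finite
  have hfin : (V ∩ A).Finite := by
    by_contra hinf
    obtain ⟨G, hG1, hG2⟩ := Set.Infinite.exists_subset_card_eq hinf (s.q i + 1)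
    have hinj : Function.Injective (fun k : K => (k : ℝ) - t) := by
      intro k k' h
      exact Subtype.ext (by simpa using h)
    have h5 := hX2 i (-t) (G.image (fun k : K => (k : ℝ) - t)) ?_ ?_
    · rw [Finset.card_image_of_injective _ hinj, hG2] at h5
      omega
    · intro x hx
      obtain ⟨k, hk, rfl⟩ := Finset.mem_image.1 hx
      exact (hG1 hk).2
    · intro x hx
      obtain ⟨k, hk, rfl⟩ := Finset.mem_image.1 hx
      have h6 : (k : ℝ) - t - -t = k := by ring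
      rw [h6, h4]
      exact ⟨k.2, (hG1 hk).1⟩
  have hVA : V ⊆ V ∩ A := by
    have h5 : V ⊆ closure (V ∩ A) := fun k hk => hVo.inter_closure ⟨hk, hVsub hk⟩
    rwa [hfin.isClosed.closure_eq] at h5
  have hVfin : V.Finite := hfin.subset hVA
  obtain ⟨k, hk⟩ := hVne
  have hsing : IsOpen ({k} : Set K) := by
    have h5 : ({k} : Set K) = V \ (V \ {k}) := by
      ext k'
      simp only [mem_singleton_iff, Set.mem_sdiff, not_and, not_not]
      constructor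
      · rintro rfl
        exact ⟨hk, fun _ => rfl⟩
      · rintro ⟨h6, h7⟩
        exact h7 h6
    rw [h5]
    exact hVo.sdiff (hVfin.subset Set.sdiff_subset).isClosed
  obtain ⟨r, hr1, hr2⟩ := hK.exists_ne hsing (mem_singleton k)
  exact hr2 hr1

end Pool.Agent.TH724.BD
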