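import Mathlib

/-!
# Counting lemmas for the common translations of finite sets of integers
-/

set_option autoImplicit false

namespace Pool.Agent.TH724.BD

open Finset

/-- the common translations: all `b` with `A - b ⊆ K` (for nonempty `A`) -/
def T (K A : Finset ℤ) : Finset ℤ :=
  ((A ×ˢ K).image (fun p => p.1 - p.2)).filter (fun b => ∀ a ∈ A, a - b ∈ K)

theorem mem_T {K A : Finset ℤ} (hA : A.Nonempty) {b : ℤ} :
    b ∈ T K A ↔ ∀ a ∈ A, a - b ∈ K := by
  obtain ⟨a0, h0⟩ := hA
  unfold T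
  simp only [mem_filter, mem_image, mem_product, Prod.exists]
  constructor
  · exact fun h => h.2
  · intro h
    exact ⟨⟨a0, a0 - b, ⟨h0, h a0 h0⟩, by ring⟩, h⟩

theorem T_insert {K A : Finset ℤ} (hA : A.Nonempty) (c : ℤ) :
    T K (insert c A) = (T K A).filter (fun b => c - b ∈ K) := by
  ext b
  rw [mem_T (insert_nonempty _ _), mem_filter, mem_T hA, Finset.forall_mem_insert, and_comm]

/-- `A` is bad for `c` at level `k` -/
def Bad (q M : ℕ) (K : Finset ℤ) (k : ℕ) (A : Finset ℤ) (c : ℤ) : Prop :=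
  (T K A).card * M ^ k ≤ M ^ q ∧ M ^ q < ((T K A).filter (fun b => c - b ∈ K)).card * M ^ (k + 1)

open Classical in
theorem count1 {q M k : ℕ} {K A C : Finset ℤ} (hM : 0 < M) (hK : K.card * M ^ 3 ≤ M ^ q) :
    (C.filter (fun c => Bad q M K k A c)).card * M ^ 2 ≤ M ^ q := by
  by_cases hA : (T K A).card * M ^ k ≤ M ^ q
  swap
  · have h0 : C.filter (fun c => Bad q M K k A c) = ∅ := by
      rw [Finset.filter_eq_empty_iff]
      intro c _ hb
      exact hA hb.1
    rw [h0]
    simp
  set V := C.filter (fun c => Bad q M K k A c) with hV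
  have h1 : V.card * M ^ q ≤
      (∑ c ∈ V, ((T K A).filter (fun b => c - b ∈ K)).card) * M ^ (k + 1) := by
    rw [Finset.sum_mul]
    calc V.card * M ^ q = ∑ c ∈ V, M ^ q := by simp
      _ ≤ _ := Finset.sum_le_sum fun c hc => (mem_filter.1 hc).2.2.le
  have h2 : ∑ c ∈ V, ((T K A).filter (fun b => c - b ∈ K)).card ≤ (T K A).card * K.card := by
    calc ∑ c ∈ V, ((T K A).filter (fun b => c - b ∈ K)).card
        = ∑ b ∈ T K A, (V.filter (fun c => c - b ∈ K)).card :=
          Finset.sum_card_bipartiteAbove_eq_sum_card_bipartiteBelow (fun c b => c - b ∈ K)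
      _ ≤ ∑ b ∈ T K A, K.card := by
          refine Finset.sum_le_sum fun b _ =>
            Finset.card_le_card_of_injOn (fun c => c - b) ?_ ?_
          · intro c hc
            exact (mem_filter.1 hc).2
          · intro c _ c' _ h
            simpa using h
      _ = _ := by simp
  have h3 : V.card * M ^ 2 * M ^ q ≤ M ^ q * M ^ q := by
    calc V.card * M ^ 2 * M ^ q = V.card * M ^ q * M ^ 2 := by ring
      _ ≤ ((T K A).card * K.card * M ^ (k + 1)) * M ^ 2 :=
          Nat.mul_le_mul_right _ (h1.trans (Nat.mul_le_mul_right _ h2))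
      _ = ((T K A).card * M ^ k) * (K.card * M ^ 3) := by ring
      _ ≤ M ^ q * M ^ q := Nat.mul_le_mul hA hK
  exact Nat.le_of_mul_le_mul_right h3 (pow_pos hM q)

open Classical in
theorem count2 {q Q M k r : ℕ} {K C : Finset ℤ} {D : Finset (Finset ℤ)} (hM : 0 < M)
    (hK : K.card * M ^ 3 ≤ M ^ q) (hD : D.card * M ^ r ≤ M ^ Q) :
    (C.filter (fun c => M ^ Q <
      (D.filter (fun A => Bad q M K k A c)).card * M ^ (r + 1))).card * M ≤ M ^ q := by
  set V := C.filter (fun c => M ^ Q <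
    (D.filter (fun A => Bad q M K k A c)).card * M ^ (r + 1)) with hV
  have h1 : V.card * M ^ Q ≤
      (∑ c ∈ V, (D.filter (fun A => Bad q M K k A c)).card) * M ^ (r + 1) := by
    rw [Finset.sum_mul]
    calc V.card * M ^ Q = ∑ c ∈ V, M ^ Q := by simp
      _ ≤ _ := Finset.sum_le_sum fun c hc => (mem_filter.1 hc).2.le
  have h2 : (∑ c ∈ V, (D.filter (fun A => Bad q M K k A c)).card) * M ^ 2 ≤
      D.card * M ^ q := by
    calc (∑ c ∈ V, (D.filter (fun A => Bad q M K k A c)).card) * M ^ 2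
        = (∑ A ∈ D, (V.filter (fun c => Bad q M K k A c)).card) * M ^ 2 := by
          congr 1
          exact Finset.sum_card_bipartiteAbove_eq_sum_card_bipartiteBelow
            (fun c A => Bad q M K k A c)
      _ = ∑ A ∈ D, (V.filter (fun c => Bad q M K k A c)).card * M ^ 2 := Finset.sum_mul ..
      _ ≤ ∑ A ∈ D, M ^ q := Finset.sum_le_sum fun A _ => count1 hM hK
      _ = _ := by simp
  have h3 : V.card * M * (M ^ Q * M) ≤ M ^ q * (M ^ Q * M) := by
    calc V.card * M * (M ^ Q * M) = V.card * M ^ Q * M ^ 2 := by ring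
      _ ≤ (∑ c ∈ V, (D.filter (fun A => Bad q M K k A c)).card) * M ^ (r + 1) * M ^ 2 :=
          Nat.mul_le_mul_right _ h1
      _ = ((∑ c ∈ V, (D.filter (fun A => Bad q M K k A c)).card) * M ^ 2) * M ^ (r + 1) := by
          ring
      _ ≤ (D.card * M ^ q) * M ^ (r + 1) := Nat.mul_le_mul_right _ h2
      _ = (D.card * M ^ r) * (M ^ q * M) := by ring
      _ ≤ M ^ Q * (M ^ q * M) := Nat.mul_le_mul_right _ hD
      _ = M ^ q * (M ^ Q * M) := by ring
  exact Nat.le_of_mul_le_mul_right h3 (Nat.mul_pos (pow_pos hM Q) hM)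

/-- the number of small nonempty sets of integers in an interval -/
theorem card_small (q B : ℕ) :
    (((Finset.Icc (0 : ℤ) B).powerset).filter (fun A => A.Nonempty ∧ A.card ≤ q)).card ≤
      (B + 1) ^ q := by
  classical
  have h1 : ((Finset.Icc (0 : ℤ) B).powerset).filter (fun A => A.Nonempty ∧ A.card ≤ q) ⊆
      (Finset.univ : Finset (Fin q → (Finset.Icc (0 : ℤ) B))).image
        (fun f => Finset.univ.image (fun j => ((f j : ℤ)))) := by
    intro A hA
    simp only [mem_filter, mem_powerset] at hA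
    obtain ⟨hA1, ⟨a0, h0⟩, hA3⟩ := hA
    simp only [mem_image, mem_univ, true_and]
    let e := A.equivFin
    refine ⟨fun j => if h : j.1 < A.card then ⟨(e.symm ⟨j.1, h⟩ : ℤ), hA1 (e.symm ⟨j.1, h⟩).2⟩
      else ⟨a0, hA1 h0⟩, ?_⟩
    ext a
    simp only [mem_image, mem_univ, true_and]
    constructor
    · rintro ⟨j, rfl⟩
      split_ifs with h
      · exact (e.symm ⟨j.1, h⟩).2
      · exact h0
    · intro ha
      have h2 : (e ⟨a, ha⟩).1 < A.card := (e ⟨a, ha⟩).2
      refine ⟨⟨(e ⟨a, ha⟩).1, lt_of_lt_of_le h2 hA3⟩, ?_⟩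
      simp only [h2, dif_pos]
      simp
  refine (Finset.card_le_card h1).trans (Finset.card_image_le.trans ?_)
  simp

end Pool.Agent.TH724.BD
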