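import Pool.Agent.TH724.BD.MRec

/-!
# The part of a measure which does not see the sets of lower box dimension less than one
-/

set_option autoImplicit false

namespace Pool.Agent.TH724.BD

open Set Topology MeasureTheory

theorem LowerBoxDimLtOne.closure {P : Set ℝ} (h : LowerBoxDimLtOne P) :
    LowerBoxDimLtOne (closure P) := by
  obtain ⟨s, hs, h1⟩ := h
  refine ⟨s, hs, fun ε hε => ?_⟩
  obtain ⟨δ, h2, h3, F, h4, h5⟩ := h1 ε hε
  refine ⟨δ, h2, h3, F, h4, closure_minimal h5 ?_⟩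
  exact isClosed_biUnion_finset fun c _ => isClosed_Icc

theorem exists_part (μ : Measure ℝ) [IsProbabilityMeasure μ] :
    ∃ P : ℕ → Set ℝ, (∀ e, LowerBoxDimLtOne (P e)) ∧ MeasurableSet (⋃ e, P e) ∧
      ∀ Q : Set ℝ, LowerBoxDimLtOne Q → μ (Q ∩ (⋃ e, P e)ᶜ) = 0 := by
  classical
  let 𝒮 : Set ENNReal :=
    {a | ∃ P : ℕ → Set ℝ, (∀ e, LowerBoxDimLtOne (P e) ∧ IsClosed (P e)) ∧ a = μ (⋃ e, P e)}
  have hne : 𝒮.Nonempty :=
    ⟨_, fun _ => ∅, fun _ => ⟨lowerBoxDimLtOne_empty, isClosed_empty⟩, rfl⟩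
  obtain ⟨u, _, hu2, hu3⟩ := exists_seq_tendsto_sSup hne (OrderTop.bddAbove 𝒮)
  choose P hP1 hP2 using hu3
  let PP : ℕ → Set ℝ := fun m => P (Nat.unpair m).1 (Nat.unpair m).2
  have hPP : ∀ m, LowerBoxDimLtOne (PP m) ∧ IsClosed (PP m) := fun m => hP1 _ _
  have hsub : ∀ n, (⋃ e, P n e) ⊆ ⋃ m, PP m := by
    intro n
    refine iUnion_subset fun e => ?_
    refine subset_iUnion_of_subset (Nat.pair n e) ?_
    simp only [PP, Nat.unpair_pair]
    exact Subset.rfl
  have hmeas : MeasurableSet (⋃ m, PP m) :=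
    MeasurableSet.iUnion fun m => (hPP m).2.measurableSet
  have hsup : sSup 𝒮 ≤ μ (⋃ m, PP m) := by
    refine le_of_tendsto hu2 (Filter.Eventually.of_forall fun n => ?_)
    rw [hP2 n]
    exact measure_mono (hsub n)
  refine ⟨PP, fun m => (hPP m).1, hmeas, fun Q hQ => ?_⟩
  have hle : μ ((⋃ m, PP m) ∪ _root_.closure Q) ≤ μ (⋃ m, PP m) := by
    refine le_trans (le_sSup ?_) hsup
    refine ⟨fun m => if m = 0 then _root_.closure Q else PP (m - 1), fun m => ?_, ?_⟩
    · by_cases hm : m = 0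
      · simp only [hm, if_true]
        exact ⟨hQ.closure, isClosed_closure⟩
      · simp only [hm, if_false]
        exact hPP _
    · congr 1
      ext x
      simp only [mem_union, mem_iUnion]
      constructor
      · rintro (⟨m, hm⟩ | hx)
        · exact ⟨m + 1, by simpa using hm⟩
        · exact ⟨0, by simpa using hx⟩
      · rintro ⟨m, hm⟩
        by_cases hm0 : m = 0
        · rw [if_pos hm0] at hm
          exact Or.inr hm
        · rw [if_neg hm0] at hm
          exact Or.inl ⟨_, hm⟩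
  have h1 : μ ((⋃ m, PP m) ∪ _root_.closure Q) =
      μ (⋃ m, PP m) + μ (_root_.closure Q \ ⋃ m, PP m) := by
    rw [← measure_union disjoint_sdiff_right (isClosed_closure.measurableSet.diff hmeas),
      union_sdiff_self]
  rw [h1] at hle
  have h2 : μ (_root_.closure Q \ ⋃ m, PP m) = 0 := by
    have h3 : μ (⋃ m, PP m) + μ (_root_.closure Q \ ⋃ m, PP m) ≤ μ (⋃ m, PP m) + 0 := by
      rwa [add_zero]
    exact le_antisymm ((ENNReal.add_le_add_iff_left (measure_ne_top μ _)).1 h3) bot_le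
  refine measure_mono_null ?_ h2
  intro x hx
  exact ⟨subset_closure hx.1, hx.2⟩

end Pool.Agent.TH724.BD
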