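import Pool.Agent.TH724.BD.Ternary
import Pool.Agent.H817R3.Scheme

/-!
# Cantor sets with portions whose translates rarely meet many given points
-/

set_option autoImplicit false

namespace Pool.Agent.TH724.BD

open Set Topology Pool.Agent.H458R5

/-- the tuples `z` such that some translate of `K` takes `z j` into the portion `K ∩ O j` for all
`j` -/
def Caught (K : Set ℝ) {n : ℕ} (O : Fin n → Set ℝ) : Set (Fin n → ℝ) :=
  {z | ∃ t : ℝ, ∀ j, z j - t ∈ K ∩ O j}

theorem infinite_inter {K : Set ℝ} (hK : IsCantorSet K) {V A : Set K} (hVo : IsOpen V)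
    (hVne : V.Nonempty) (hVsub : V ⊆ closure A) : (V ∩ A).Infinite := by
  intro hfin
  have hVA : V ⊆ V ∩ A := by
    have h5 : V ⊆ closure (V ∩ A) := fun k hk => hVo.inter_closure ⟨hk, hVsub hk⟩
    rwa [hfin.isClosed.closure_eq] at h5
  have hVfin : V.Finite := hfin.subset hVA
  obtain ⟨k, hk⟩ := hVne
  have hsing : IsOpen ({k} : Set K) := by
    have h5 : ({k} : Set K) = V \ (V \ {k}) := by
      ext k'
      simp only [mem_singleton_iff, Set.mem_sdiff, not_and, not_not]
      constructor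
      · rintro rfl
        exact ⟨hk, fun _ => rfl⟩
      · rintro ⟨h6, h7⟩
        exact h7 h6
    rw [h5]
    exact hVo.sdiff (hVfin.subset Set.sdiff_subset).isClosed
  obtain ⟨r, hr1, hr2⟩ := hK.exists_ne hsing (mem_singleton k)
  exact hr2 hr1

/-- distinct representatives of infinite sets -/
theorem exists_reps {α : Type} {n : ℕ} {S : Fin n → Set α} (hS : ∀ j, (S j).Infinite) :
    ∃ f : Fin n → α, Function.Injective f ∧ ∀ j, f j ∈ S j := by
  classical
  choose G hG1 hG2 using fun j => (hS j).exists_subset_card_eq n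
  obtain ⟨f, hf1, hf2⟩ := (Finset.all_card_le_biUnion_card_iff_exists_injective G).1 (by
    intro s
    rcases s.eq_empty_or_nonempty with rfl | ⟨j, hj⟩
    · simp
    · calc s.card ≤ (Finset.univ : Finset (Fin n)).card := Finset.card_le_univ s
        _ = n := by simp
        _ = (G j).card := (hG2 j).symm
        _ ≤ _ := Finset.card_le_card (Finset.subset_biUnion_of_mem G hj))
  exact ⟨f, hf1, fun j => hG1 j (hf2 j)⟩

/-- **The main theorem.** -/
theorem smallTraces_of_caught {K : Set ℝ} (hK : IsCantorSet K)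
    (hT : ∀ O : Set ℝ, IsOpen O → (K ∩ O).Nonempty → ∃ (n : ℕ) (O' : Fin n → Set ℝ),
      (∀ j, O' j ⊆ O ∧ IsOpen (O' j) ∧ (K ∩ O' j).Nonempty) ∧ IsMeagre (Caught K O')) :
    SmallTraces K := by
  classical
  have hb := TopologicalSpace.isBasis_countableBasis ℝ
  obtain ⟨e, he⟩ := ((TopologicalSpace.countable_countableBasis ℝ).insert
    (∅ : Set ℝ)).exists_eq_range (Set.insert_nonempty _ _)
  have h1 : ∀ i, ∃ (n : ℕ) (O' : Fin n → Set ℝ), IsMeagre (Caught K O') ∧
      (e i ∈ TopologicalSpace.countableBasis ℝ → (K ∩ e i).Nonempty →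
        ∀ j, O' j ⊆ e i ∧ IsOpen (O' j) ∧ (K ∩ O' j).Nonempty) := by
    intro i
    by_cases hi : e i ∈ TopologicalSpace.countableBasis ℝ ∧ (K ∩ e i).Nonempty
    · obtain ⟨n, O', h1, h2⟩ := hT (e i) (hb.isOpen hi.1) hi.2
      exact ⟨n, O', h2, fun _ _ => h1⟩
    · refine ⟨1, fun _ => ∅, ?_, fun h2 h3 => absurd ⟨h2, h3⟩ hi⟩
      have h2 : Caught K (fun _ : Fin 1 => (∅ : Set ℝ)) = ∅ := by
        ext z
        simp [Caught]
      rw [h2]
      exact IsMeagre.empty
  choose n O' hR hO' using h1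
  obtain ⟨X, hX1, hX2⟩ := Pool.Agent.H817R3.exists_free (X := ℝ) (fun x => inferInstance)
    (ι := ℕ) n (fun i => Caught K (O' i)) hR (fun M hM h => by
      have h2 : IsMeagre (⋃ i, M i) := isMeagre_iUnion hM
      rw [h] at h2
      exact not_isMeagre_of_isOpen isOpen_univ univ_nonempty h2)
  refine ⟨X, fun h => hX1 univ isOpen_univ univ_nonempty (by rwa [inter_univ]),
    fun t => IsNowhereDense.isMeagre ?_⟩
  set A : Set K := {k : K | (k : ℝ) - t ∈ X} with hA
  by_contra hcon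
  have hne : (interior (closure A)).Nonempty := Set.nonempty_iff_ne_empty.2 hcon
  obtain ⟨p, hp⟩ := hne
  obtain ⟨O, hO, hOeq⟩ := isOpen_induced_iff.1 (isOpen_interior : IsOpen (interior (closure A)))
  have hpO : (p : ℝ) ∈ O := by
    have h2 : p ∈ Subtype.val ⁻¹' O := by rw [hOeq]; exact hp
    exact h2
  obtain ⟨b, hb1, hpb, hbO⟩ := hb.exists_subset_of_mem_open hpO hO
  have hbr : b ∈ range e := by rw [← he]; exact Or.inr hb1
  obtain ⟨i, rfl⟩ := hbr
  have h2 := hO' i hb1 ⟨p, p.2, hpb⟩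
  have h3 : ∀ j, ((Subtype.val ⁻¹' (O' i j) : Set K) ∩ A).Infinite := by
    intro j
    obtain ⟨h4, h5, k, hk1, hk2⟩ := h2 j
    refine infinite_inter hK (h5.preimage continuous_subtype_val) ⟨⟨k, hk1⟩, hk2⟩ ?_
    intro k' hk'
    have h6 : k' ∈ Subtype.val ⁻¹' O := hbO (h4 hk')
    rw [hOeq] at h6
    exact interior_subset h6
  obtain ⟨f, hf1, hf2⟩ := exists_reps h3
  refine hX2 i (fun j => (f j : ℝ) - t) ?_ (fun j => (hf2 j).2) ⟨-t, fun j => ?_⟩
  · intro j j' h
    exact hf1 (Subtype.ext (by simpa using h))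
  · have h6 : (f j : ℝ) - t - -t = f j := by ring
    rw [h6]
    exact ⟨(f j).2, (hf2 j).1⟩

end Pool.Agent.TH724.BD
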