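import Pool.Agent.TH724.BD.Ternary

/-!
# New points in a set of positive measure
-/

set_option autoImplicit false

namespace Pool.Agent.TH724.BD

open MeasureTheory

theorem Sys.new_point' (s : Sys) {S : Finset ℝ} {m : ℕ → ℕ} (hS : ∀ e, s.Inv S e (m e))
    {C : Set ℝ} (hC : C ⊆ Set.Ioo 0 1) (hC0 : volume C ≠ 0) :
    ∃ x ∈ C, x ∉ S ∧ (∀ e i (z : ℤ), x * s.B e i ≠ z) ∧
      ∃ m' : ℕ → ℕ, (∀ e, m e ≤ m' e) ∧ ∀ e, s.Inv (insert x S) e (m' e) := by
  classical
  have hCfin : volume C ≠ ⊤ := by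
    refine ne_top_of_le_ne_top ?_ (measure_mono hC)
    rw [Real.volume_Ioo]
    exact ENNReal.ofReal_ne_top
  obtain ⟨η, hη0, hη⟩ : ∃ η : ℝ, 0 < η ∧ ENNReal.ofReal η = volume C :=
    ⟨(volume C).toReal, ENNReal.toReal_pos hC0 hCfin, ENNReal.ofReal_toReal hCfin⟩
  let I : ℕ → Finset (Finset ℝ × ℕ) := fun e => S.powerset ×ˢ Finset.range (s.q e + 1)
  let D : ℕ → ℕ → Finset ℝ × ℕ → Finset (Finset ℤ) := fun e i p =>
    (s.AA e i).filter (fun A => ∀ x ∈ p.1, Bad (s.q e) (s.M e i) (s.KS e i) p.2 A (s.fl e i x))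
  let V0 : ℕ → ℕ → Finset ℝ × ℕ → Finset ℤ := fun e i p =>
    (Finset.Icc (0 : ℤ) (s.B e i)).filter (fun c => s.M e i ^ s.Q e <
      ((D e i p).filter (fun A => Bad (s.q e) (s.M e i) (s.KS e i) p.2 A c)).card *
        s.M e i ^ (p.1.card + 1))
  let V : ℕ → ℕ → Finset ℤ := fun e i => (I e).biUnion (V0 e i)
  have hV : ∀ e i, m e ≤ i → (V e i).card * s.M e i ≤ (I e).card * s.B e i := by
    intro e i hi
    calc (V e i).card * s.M e i ≤ (∑ p ∈ I e, (V0 e i p).card) * s.M e i :=
          Nat.mul_le_mul_right _ Finset.card_biUnion_le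
      _ = ∑ p ∈ I e, (V0 e i p).card * s.M e i := Finset.sum_mul ..
      _ ≤ ∑ p ∈ I e, s.B e i := by
          refine Finset.sum_le_sum fun p hp => ?_
          simp only [I, Finset.mem_product, Finset.mem_powerset, Finset.mem_range] at hp
          exact count2 (s.M_pos e i) (s.hK e i) (hS e i hi p.1 hp.1 p.2 (by omega))
      _ = _ := by simp
  let E : ℕ → ℕ → Set ℝ := fun e i =>
    ⋃ c ∈ V e i, Set.Ico ((c : ℝ) / s.B e i) (((c : ℝ) + 1) / s.B e i)
  have hE : ∀ e i, m e ≤ i → volume (E e i) ≤ ENNReal.ofReal ((I e).card / 2 ^ (i + 1)) := by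
    intro e i hi
    have hB : (0 : ℝ) < s.B e i := by exact_mod_cast s.B_pos e i
    have hM : (0 : ℝ) < s.M e i := by exact_mod_cast s.M_pos e i
    calc volume (E e i) ≤ ∑ c ∈ V e i,
          volume (Set.Ico ((c : ℝ) / s.B e i) (((c : ℝ) + 1) / s.B e i)) :=
          measure_biUnion_finset_le _ _
      _ = ∑ c ∈ V e i, ENNReal.ofReal (1 / s.B e i) := by
          refine Finset.sum_congr rfl fun c _ => ?_
          rw [Real.volume_Ico]
          congr 1
          ring
      _ = ENNReal.ofReal ((V e i).card / s.B e i) := by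
          rw [Finset.sum_const, nsmul_eq_mul, ← ENNReal.ofReal_natCast,
            ← ENNReal.ofReal_mul (Nat.cast_nonneg _)]
          congr 1
          ring
      _ ≤ _ := by
          refine ENNReal.ofReal_le_ofReal ?_
          rw [div_le_div_iff₀ hB (by positivity)]
          have h1 : ((V e i).card : ℝ) * s.M e i ≤ (I e).card * s.B e i := by
            exact_mod_cast hV e i hi
          have h2 : (2 : ℝ) ^ (i + 1) ≤ s.M e i := by exact_mod_cast s.hM e i
          exact (mul_le_mul_of_nonneg_left h2 (Nat.cast_nonneg _)).trans h1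
  -- the thresholds
  have hthr : ∀ e, ∃ n : ℕ, ((I e).card : ℝ) * (1 / 2) ^ n < η / 4 * (1 / 2) ^ e := by
    intro e
    have h1 : Filter.Tendsto (fun n : ℕ => ((I e).card : ℝ) * (1 / 2) ^ n) Filter.atTop
        (nhds (((I e).card : ℝ) * 0)) :=
      (tendsto_pow_atTop_nhds_zero_of_lt_one (by norm_num) (by norm_num)).const_mul _
    rw [mul_zero] at h1
    have h2 : (0 : ℝ) < η / 4 * (1 / 2) ^ e := by
      positivity
    exact (h1.eventually (gt_mem_nhds h2)).exists
  choose n hn using hthr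
  let m' : ℕ → ℕ := fun e => max (m e) (n e)
  have hE2 : ∀ e, volume (⋃ i, E e (m' e + i)) ≤ ENNReal.ofReal (η / 4 * (1 / 2) ^ e) := by
    intro e
    calc volume (⋃ i, E e (m' e + i)) ≤ ∑' i, volume (E e (m' e + i)) := measure_iUnion_le _
      _ ≤ ∑' i : ℕ, ENNReal.ofReal (((I e).card / 2 ^ (m' e + 1)) * (1 / 2) ^ i) := by
          refine ENNReal.tsum_le_tsum fun i => ?_
          refine (hE e (m' e + i) (le_trans (le_max_left _ _) (Nat.le_add_right _ _))).trans ?_
          refine ENNReal.ofReal_le_ofReal (le_of_eq ?_)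
          rw [pow_add, pow_add, pow_one, one_div, inv_pow, pow_add]
          field_simp
      _ = ENNReal.ofReal (((I e).card / 2 ^ (m' e + 1)) * 2) := tsum_aux _ (by positivity)
      _ ≤ _ := by
          refine ENNReal.ofReal_le_ofReal (le_trans ?_ (hn e).le)
          have h1 : ((1 : ℝ) / 2) ^ (m' e) ≤ (1 / 2) ^ (n e) :=
            pow_le_pow_of_le_one (by norm_num) (by norm_num) (le_max_right _ _)
          have h2 : ((I e).card : ℝ) / 2 ^ (m' e + 1) * 2 = (I e).card * (1 / 2) ^ (m' e) := by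
            rw [pow_succ, one_div, inv_pow]
            field_simp
          rw [h2]
          exact mul_le_mul_of_nonneg_left h1 (Nat.cast_nonneg _)
  have hE3 : volume (⋃ e, ⋃ i, E e (m' e + i)) < volume C := by
    calc volume (⋃ e, ⋃ i, E e (m' e + i)) ≤ ∑' e, volume (⋃ i, E e (m' e + i)) :=
          measure_iUnion_le _
      _ ≤ ∑' e : ℕ, ENNReal.ofReal (η / 4 * (1 / 2) ^ e) :=
          ENNReal.tsum_le_tsum hE2
      _ = ENNReal.ofReal (η / 4 * 2) := tsum_aux _ (by positivity)
      _ < _ := by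
          rw [← hη, ENNReal.ofReal_lt_ofReal_iff hη0]
          linarith
  let N : Set ℝ := (S : Set ℝ) ∪ ⋃ p : ℕ × ℕ × ℤ, {(p.2.2 : ℝ) / s.B p.1 p.2.1}
  have hN : volume N = 0 := by
    refine Set.Countable.measure_zero ?_ _
    exact (Finset.countable_toSet S).union (Set.countable_iUnion fun p =>
      Set.countable_singleton _)
  obtain ⟨x, hx1, hx2⟩ : ∃ x ∈ C, x ∉ (⋃ e, ⋃ i, E e (m' e + i)) ∪ N := by
    by_contra hcon
    push Not at hcon
    have h1 : C ⊆ (⋃ e, ⋃ i, E e (m' e + i)) ∪ N := fun x hx => hcon x hx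
    have h2 := (measure_mono (μ := volume) h1).trans (measure_union_le _ _)
    rw [hN, add_zero] at h2
    exact absurd hE3 (not_lt.2 h2)
  have hx3 : x ∉ N := fun h => hx2 (Or.inr h)
  refine ⟨x, hx1, fun h => hx3 (Or.inl h), fun e i z h => ?_, m', fun e => le_max_left _ _,
    fun e i hi R hR k hk => ?_⟩
  · refine hx3 (Or.inr (Set.mem_iUnion.2 ⟨(e, i, z), ?_⟩))
    have hB : (s.B e i : ℝ) ≠ 0 := by exact_mod_cast (s.B_pos e i).ne'
    simp only [Set.mem_singleton_iff]
    rw [← h]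
    field_simp
  · have hmi : m e ≤ i := le_trans (le_max_left _ _) hi
    by_cases hxR : x ∈ R
    swap
    · refine hS e i hmi R (fun y hy => ?_) k hk
      rcases Finset.mem_insert.1 (hR hy) with h | h
      · rw [h] at hy; exact absurd hy hxR
      · exact h
    have hR' : R.erase x ⊆ S := by
      intro y hy
      rcases Finset.mem_insert.1 (hR (Finset.mem_of_mem_erase hy)) with h | h
      · exact absurd h (Finset.ne_of_mem_erase hy)
      · exact h
    have hB : (0 : ℝ) < s.B e i := by exact_mod_cast s.B_pos e i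
    have hc0 : (0 : ℤ) ≤ s.fl e i x := by
      rw [Sys.fl]
      exact Int.floor_nonneg.2 (mul_nonneg (hC hx1).1.le hB.le)
    have hcB : s.fl e i x ≤ s.B e i := by
      rw [Sys.fl]
      have h1 : x * s.B e i ≤ s.B e i := by
        have : x ≤ 1 := (hC hx1).2.le
        nlinarith
      have h2 : (⌊x * s.B e i⌋ : ℝ) ≤ s.B e i := (Int.floor_le _).trans h1
      exact_mod_cast h2
    have hcV : s.fl e i x ∉ V e i := by
      intro hmem
      refine hx2 (Or.inl (Set.mem_iUnion.2 ⟨e, Set.mem_iUnion.2 ⟨i - m' e, ?_⟩⟩))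
      have h1 : m' e + (i - m' e) = i := by omega
      rw [h1]
      refine Set.mem_iUnion₂.2 ⟨s.fl e i x, hmem, ?_, ?_⟩
      · rw [div_le_iff₀ hB]
        exact Int.floor_le _
      · rw [lt_div_iff₀ hB]
        exact Int.lt_floor_add_one _
    have hcV0 : s.fl e i x ∉ V0 e i (R.erase x, k) := by
      intro hmem
      refine hcV (Finset.mem_biUnion.2 ⟨(R.erase x, k), ?_, hmem⟩)
      simp only [I, Finset.mem_product, Finset.mem_powerset, Finset.mem_range]
      exact ⟨hR', by omega⟩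
    have h2 : ¬ (s.M e i ^ s.Q e < ((D e i (R.erase x, k)).filter (fun A =>
        Bad (s.q e) (s.M e i) (s.KS e i) k A (s.fl e i x))).card *
          s.M e i ^ ((R.erase x).card + 1)) := by
      intro h
      exact hcV0 (Finset.mem_filter.2 ⟨Finset.mem_Icc.2 ⟨hc0, hcB⟩, h⟩)
    have h3 : (s.AA e i).filter (fun A => ∀ y ∈ R,
        Bad (s.q e) (s.M e i) (s.KS e i) k A (s.fl e i y)) =
        (D e i (R.erase x, k)).filter (fun A =>
          Bad (s.q e) (s.M e i) (s.KS e i) k A (s.fl e i x)) := by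
      ext A
      simp only [D, Finset.mem_filter]
      constructor
      · rintro ⟨hA, h⟩
        exact ⟨⟨hA, fun y hy => h y (Finset.mem_of_mem_erase hy)⟩, h x hxR⟩
      · rintro ⟨⟨hA, h⟩, h'⟩
        refine ⟨hA, fun y hy => ?_⟩
        by_cases hyx : y = x
        · rw [hyx]; exact h'
        · exact h y (Finset.mem_erase.2 ⟨hyx, hy⟩)
    have h4 : R.card = (R.erase x).card + 1 := (Finset.card_erase_add_one hxR).symm
    rw [h3, h4]
    exact not_lt.1 h2

end Pool.Agent.TH724.BD
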