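import Pool.Agent.TH724.BD.MScheme

/-!
# The set of positive outer measure
-/

set_option autoImplicit false

namespace Pool.Agent.TH724.BD

open Set Topology Cardinal MeasureTheory Pool.Agent.H458R5

theorem Sys.exists_good (s : Sys) {f : (ℕ → Bool) → ℝ} (hf1 : Function.Injective f)
    (hf4 : ∀ (e : ℕ) (A : ℕ → Finset ℤ) (k : ℕ), k ≤ s.q e → (∀ i, A i ∈ s.AA e i) →
        {i | (T (s.KS e i) (A i)).card * s.M e i ^ k ≤ s.M e i ^ s.q e}.Infinite →
        {α | ¬ {i | (T (s.KS e i) (insert (s.fl e i (f α)) (A i))).card *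
          s.M e i ^ (k + 1) ≤ s.M e i ^ s.q e}.Infinite}.Finite)
    {S : Set ℝ} (hS : #S < 𝔠) (hS1 : S ⊆ Ioo 0 1) :
    ∃ α, f α ∉ S ∧ ∀ (e : ℕ) (F : Finset ℝ), (F : Set ℝ) ⊆ S →
      F.Nonempty → F.card ≤ s.q e → s.Good e F → s.Good e (insert (f α) F) := by
  classical
  by_contra hcon
  push Not at hcon
  let J := S ⊕ (ℕ × Finset S)
  let emb : Finset S → Finset ℝ := fun F => F.map (Function.Embedding.subtype _)
  let R : J → (ℕ → Bool) → Prop := fun p α => match p with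
    | Sum.inl x => f α = x
    | Sum.inr (e, F) => (emb F).Nonempty ∧ (emb F).card ≤ s.q e ∧ s.Good e (emb F) ∧
        f α ∉ emb F ∧ ¬ s.Good e (insert (f α) (emb F))
  have h1 : ∀ α, ∃ p : J, R p α := by
    intro α
    by_cases hα : f α ∈ S
    · exact ⟨Sum.inl ⟨f α, hα⟩, rfl⟩
    · obtain ⟨e, F, hF1, hF2, hF3, hF4, hF5⟩ := hcon α hα
      have h3 : emb (F.subtype (· ∈ S)) = F := by
        ext y
        simp only [emb, Finset.mem_map, Finset.mem_subtype, Function.Embedding.coe_subtype]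
        constructor
        · rintro ⟨z, hz, rfl⟩
          exact hz
        · intro hy
          exact ⟨⟨y, hF1 hy⟩, hy, rfl⟩
      refine ⟨Sum.inr (e, F.subtype (· ∈ S)), ?_⟩
      change (emb (F.subtype (· ∈ S))).Nonempty ∧ _
      rw [h3]
      exact ⟨hF2, hF3, hF4, fun h => hα (hF1 h), hF5⟩
  choose g hg using h1
  have h2 : ∀ p, (g ⁻¹' {p}).Finite := by
    intro p
    refine Set.Finite.subset (s := {α | R p α}) ?_ ?_
    · rcases p with x | ⟨e, F⟩
      · refine Set.Subsingleton.finite ?_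
        intro α hα β hβ
        exact hf1 ((show f α = x from hα).trans (show f β = x from hβ).symm)
      · by_cases hp : (emb F).Nonempty ∧ (emb F).card ≤ s.q e ∧ s.Good e (emb F)
        · obtain ⟨hp1, hp2, hp3⟩ := hp
          have hF01 : ∀ x ∈ emb F, x ∈ Ioo (0 : ℝ) 1 := by
            intro x hx
            simp only [emb, Finset.mem_map, Function.Embedding.coe_subtype] at hx
            obtain ⟨z, _, rfl⟩ := hx
            exact hS1 z.2
          refine (hf4 e (fun i => (emb F).image (s.fl e i)) (emb F).card hp2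
            (fun i => s.image_mem e i hF01 hp1 hp2) hp3).subset ?_
          rintro α ⟨_, _, _, hα1, hα2⟩
          intro hinf
          apply hα2
          rw [Sys.Good, Finset.card_insert_of_notMem hα1]
          refine hinf.mono ?_
          intro i hi
          simp only [Set.mem_ofPred_eq] at hi ⊢
          rw [Finset.image_insert]
          exact hi
        · refine Set.finite_empty.subset ?_
          rintro α ⟨hp1, hp2, hp3, _⟩
          exact hp ⟨hp1, hp2, hp3⟩
    · intro α hα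
      have h3 : g α = p := hα
      rw [← h3]
      exact hg α
  have h5 : #(ℕ → Bool) ≤ #J * ℵ₀ :=
    mk_le_mk_mul_of_mk_preimage_le g fun p => (h2 p).countable.le_aleph0
  have h6 : #(ℕ → Bool) = 𝔠 := by simp
  have h7 : #J < 𝔠 := by
    simp only [J]
    rw [mk_sum, Cardinal.lift_id, Cardinal.lift_id, mk_prod, Cardinal.lift_id, Cardinal.lift_id,
      mk_nat]
    exact add_lt_of_lt aleph0_le_continuum hS
      (mul_lt_of_lt aleph0_le_continuum aleph0_lt_continuum (mk_finset_lt hS))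
  rw [h6] at h5
  exact absurd h5 (not_le.2 (mul_lt_of_lt aleph0_le_continuum h7 aleph0_lt_continuum))

/-- the property of the next point -/
def Sys.MNext (s : Sys) (U : ℕ → Set ℝ) (S : Set ℝ) (x : ℝ) : Prop :=
  x ∈ Ioo (0 : ℝ) 1 ∧ x ∉ ⋂ k, U k ∧ x ∉ S ∧ ∀ (e : ℕ) (F : Finset ℝ), (F : Set ℝ) ⊆ S →
    F.Nonempty → F.card ≤ s.q e → s.Good e F → s.Good e (insert x F)

theorem Sys.exists_mnext (s : Sys) {U : ℕ → Set ℝ} (hU : ∀ k, IsOpen (U k))
    (hU' : volume (⋂ k, U k) = 0) {S : Set ℝ} (hS : #S < 𝔠) (hS1 : S ⊆ Ioo 0 1) :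
    ∃ x, s.MNext U S x := by
  have hm : MeasurableSet (Ioo (0 : ℝ) 1 \ ⋂ k, U k) :=
    measurableSet_Ioo.diff (MeasurableSet.iInter fun k => (hU k).measurableSet)
  have hpos : 0 < volume (Ioo (0 : ℝ) 1 \ ⋂ k, U k) := by
    rw [measure_sdiff_null hU', Real.volume_Ioo]
    simp
  obtain ⟨C, hC1, hC2, hC3⟩ := hm.exists_lt_isCompact hpos
  obtain ⟨f, hf1, hf2, hf4⟩ := s.mscheme (fun x hx => (hC1 hx).1) hC3.ne' hC2.isClosed
  obtain ⟨α, hα1, hα2⟩ := s.exists_good hf1 hf4 hS hS1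
  exact ⟨f α, (hC1 (hf2 α)).1, (hC1 (hf2 α)).2, hα1, hα2⟩

section

variable {Λ : Type} [LinearOrder Λ] [WellFoundedLT Λ] (s : Sys) (task : Λ → Task)

/-- the next point -/
noncomputable def mnx (t : Task) (S : Set ℝ) : ℝ :=
  open Classical in
  if h : ∃ x, s.MNext (fun k => (t k).1) S x then h.choose else 0

/-- the points -/
noncomputable def mpt : Λ → ℝ :=
  wellFounded_lt.fix fun γ ih =>
    mnx s (task γ) {a | a ∈ Ioo (0 : ℝ) 1 ∧ ∃ β, ∃ h : β < γ, ih β h = a}

theorem mpt_eq (γ : Λ) :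
    mpt s task γ = mnx s (task γ) (Ioo (0 : ℝ) 1 ∩ mpt s task '' Iio γ) := by
  rw [mpt, WellFounded.fix_eq]
  congr 1
  ext a
  simp only [Set.mem_ofPred_eq, Set.mem_image, Set.mem_Iio, exists_prop, Set.mem_inter_iff]

end

/-- **The set of positive outer measure.** -/
theorem Sys.exists_mset (s : Sys) :
    ∃ X : Set ℝ, volume X ≠ 0 ∧ ∀ (e : ℕ) (F : Finset ℝ), (F : Set ℝ) ⊆ X → F.Nonempty →
      F.card ≤ s.q e + 1 → s.Good e F := by
  classical
  let Λ := (𝔠 : Cardinal.{0}).ord.ToType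
  have hΛ : #Λ = 𝔠 := Cardinal.mk_ord_toType _
  have hΛ2 : ∀ γ : Λ, #(Iio γ) < 𝔠 := fun γ => Cardinal.mk_Iio_toType_ord_lt γ
  have hsurj : ∃ task : Λ → Task, Function.Surjective task := by
    have h1 : #Task ≤ #Λ := by rw [hΛ]; exact mk_task_le
    obtain ⟨e⟩ := h1
    have : Nonempty Task := ⟨fun _ => ⟨∅, isOpen_empty⟩⟩
    exact ⟨Function.invFun e, Function.invFun_surjective e.injective⟩
  obtain ⟨task, htask⟩ := hsurj
  let x : Λ → ℝ := mpt s task
  have hx : ∀ γ, x γ ∈ Ioo (0 : ℝ) 1 →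
      s.MNext (fun k => (task γ k).1) (Ioo (0 : ℝ) 1 ∩ x '' Iio γ) (x γ) := by
    intro γ hγ
    have h3 : x γ = mnx s (task γ) (Ioo (0 : ℝ) 1 ∩ x '' Iio γ) := mpt_eq s task γ
    rw [mnx] at h3
    split_ifs at h3 with h
    · rw [h3]
      exact h.choose_spec
    · rw [h3] at hγ
      exact absurd hγ.1 (lt_irrefl _)
  have hx2 : ∀ γ, volume (⋂ k, (task γ k).1) = 0 → x γ ∈ Ioo (0 : ℝ) 1 := by
    intro γ hγ
    have h1 : #(Ioo (0 : ℝ) 1 ∩ x '' Iio γ : Set ℝ) < 𝔠 :=
      (mk_le_mk_of_subset inter_subset_right).trans_lt (mk_image_le.trans_lt (hΛ2 γ))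
    have h2 := s.exists_mnext (fun k => (task γ k).2) hγ h1 inter_subset_left
    have h3 : x γ = h2.choose := by
      change mpt s task γ = _
      rw [mpt_eq, mnx, dif_pos h2]
    rw [h3]
    exact h2.choose_spec.1
  refine ⟨Ioo (0 : ℝ) 1 ∩ range x, fun hnull => ?_, ?_⟩
  · have hV : ∀ k : ℕ, ∃ V ⊇ Ioo (0 : ℝ) 1 ∩ range x, IsOpen V ∧ volume V < 1 / ((k : ENNReal) + 1) := by
      intro k
      refine Set.exists_isOpen_lt_of_lt _ _ ?_
      rw [hnull]
      exact ENNReal.div_pos one_ne_zero (by finiteness)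
    choose V hV1 hV2 hV3 using hV
    obtain ⟨γ, hγ⟩ := htask fun k => ⟨V k, hV2 k⟩
    have hVnull : volume (⋂ k, V k) = 0 := by
      refine le_antisymm (ENNReal.le_of_forall_pos_le_add fun η hη _ => ?_) bot_le
      rw [zero_add]
      obtain ⟨k, hk⟩ := ENNReal.exists_inv_nat_lt (a := (η : ENNReal)) (by
        exact_mod_cast hη.ne')
      refine (measure_mono (iInter_subset _ k)).trans ((hV3 k).le.trans (le_trans ?_ hk.le))
      rw [one_div]
      exact ENNReal.inv_le_inv.2 le_self_add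
    have hγ' : volume (⋂ k, (task γ k).1) = 0 := by
      rw [hγ]
      exact hVnull
    have h2 := hx2 γ hγ'
    refine (hx γ h2).2.1 (mem_iInter.2 fun k => ?_)
    rw [hγ]
    exact hV1 k ⟨h2, γ, rfl⟩
  · intro e F
    induction F using Finset.strongInduction with
    | H F ih =>
    intro hFX hne hcard
    have hidx : ∀ y : ℝ, ∃ γ : Λ, y ∈ F → x γ = y := by
      intro y
      by_cases hy : y ∈ F
      · obtain ⟨γ, hγ⟩ := (hFX hy).2
        exact ⟨γ, fun _ => hγ⟩
      · obtain ⟨y0, hy0⟩ := hne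
        obtain ⟨γ, hγ⟩ := (hFX hy0).2
        exact ⟨γ, fun h => absurd h hy⟩
    choose idx hidx using hidx
    obtain ⟨y, hy, hmax⟩ := Finset.exists_max_image F idx hne
    by_cases hF' : (F.erase y).Nonempty
    · have h1 : s.Good e (F.erase y) := by
        refine ih _ (Finset.erase_ssubset hy) ?_ hF' ?_
        · exact fun z hz => hFX (Finset.mem_of_mem_erase hz)
        · exact (Finset.card_le_card (Finset.erase_subset _ _)).trans hcard
      have h2 := (hx (idx y) (by rw [hidx y hy]; exact (hFX hy).1)).2.2.2 e (F.erase y) ?_ hF' ?_ h1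
      · rw [hidx y hy, Finset.insert_erase hy] at h2
        exact h2
      · intro z hz
        have hzF : z ∈ F := Finset.mem_of_mem_erase hz
        have hzy : z ≠ y := Finset.ne_of_mem_erase hz
        refine ⟨(hFX hzF).1, idx z, ?_, hidx z hzF⟩
        refine lt_of_le_of_ne (hmax z hzF) fun h => hzy ?_
        rw [← hidx z hzF, ← hidx y hy, h]
      · have h3 := Finset.card_erase_add_one hy
        omega
    · have h1 : F = {y} := by
        rw [Finset.not_nonempty_iff_eq_empty] at hF'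
        rw [← Finset.insert_erase hy, hF']
        rfl
      rw [h1]
      exact s.good_singleton e y

theorem Sys.exists_mset' (s : Sys) (P : ℕ → Set ℝ)
    (hP : ∀ e i x t, x - t ∈ P e → s.fl e i x - s.fl e i t ∈ s.KS e i) :
    ∃ X : Set ℝ, volume X ≠ 0 ∧ ∀ (e : ℕ) (t : ℝ), {x ∈ X | x - t ∈ P e}.Finite := by
  classical
  obtain ⟨X, hX1, hX2⟩ := s.exists_mset
  refine ⟨X, hX1, fun e t => ?_⟩
  by_contra hcon
  obtain ⟨G, hGF, hGc⟩ := Set.Infinite.exists_subset_card_eq hcon (s.q e + 1)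
  have hGne : G.Nonempty := by
    rw [← Finset.card_pos, hGc]
    omega
  have hgood := hX2 e G (fun x hx => (hGF hx).1) hGne hGc.le
  obtain ⟨i, hi⟩ := hgood.nonempty
  simp only [Set.mem_ofPred_eq] at hi
  rw [hGc] at hi
  have h1 : s.fl e i t ∈ T (s.KS e i) (G.image (s.fl e i)) := by
    rw [mem_T (hGne.image _)]
    intro c hc
    obtain ⟨x, hx, rfl⟩ := Finset.mem_image.1 hc
    exact hP e i x t (hGF hx).2
  have h2 : 1 ≤ (T (s.KS e i) (G.image (s.fl e i))).card := Finset.card_pos.2 ⟨_, h1⟩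
  have h3 : s.M e i ^ s.q e < s.M e i ^ (s.q e + 1) :=
    Nat.pow_lt_pow_right (s.two_le_M e i) (by omega)
  nlinarith [Nat.zero_le (s.M e i ^ (s.q e + 1))]

/-- A set of positive outer measure all of whose translates meet each of countably many given
sets of lower box dimension less than one in a finite set. -/
theorem exists_nonnull (P : ℕ → Set ℝ) (hP : ∀ e, LowerBoxDimLtOne (P e)) :
    ∃ X : Set ℝ, volume X ≠ 0 ∧ ∀ (e : ℕ) (t : ℝ), {x ∈ X | x - t ∈ P e}.Finite := by
  obtain ⟨s, hs⟩ := exists_sys P hP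
  exact s.exists_mset' P hs

/-- A measure carried by countably many sets of lower box dimension less than one. -/
theorem not_detecting (μ : Measure ℝ) (hat : ∀ x : ℝ, μ {x} = 0) (P : ℕ → Set ℝ)
    (hP : ∀ e, LowerBoxDimLtOne (P e)) (hμ : μ (⋃ e, P e)ᶜ = 0) :
    ∃ X : Set ℝ, volume X ≠ 0 ∧ ∀ t : ℝ, μ ((fun x => x + t) '' X) = 0 := by
  obtain ⟨X, hX1, hX2⟩ := exists_nonnull P hP
  refine ⟨X, hX1, fun t => ?_⟩
  have hns : NullSingletonClass μ := ⟨hat⟩
  have hcount : (((fun x => x + t) '' X) ∩ ⋃ e, P e).Countable := by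
    rw [Set.inter_iUnion]
    refine Set.countable_iUnion fun e => ?_
    refine (((hX2 e (-t)).image (fun x => x + t)).subset ?_).countable
    rintro _ ⟨⟨x, hx, rfl⟩, hxP⟩
    exact ⟨x, ⟨hx, by simpa using hxP⟩, rfl⟩
  refine measure_mono_null (t := (((fun x => x + t) '' X) ∩ ⋃ e, P e) ∪ (⋃ e, P e)ᶜ) ?_
    (measure_union_null (hcount.measure_zero μ) hμ)
  intro y hy
  by_cases hyB : y ∈ ⋃ e, P e
  · exact Or.inl ⟨hy, hyB⟩
  · exact Or.inr hyB

end Pool.Agent.TH724.BD
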