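import Pool.Agent.TH724.BD.MPoint

/-!
# The tree within a compact set of positive measure
-/

set_option autoImplicit false

namespace Pool.Agent.TH724.BD

open MeasureTheory Topology Metric

/-- the points of `C` all of whose neighbourhoods meet `C` in a set of positive measure -/
def Sup (C : Set ℝ) : Set ℝ := {x | x ∈ C ∧ ∀ r > 0, volume (C ∩ ball x r) ≠ 0}

theorem volume_diff_Sup (C : Set ℝ) : volume (C \ Sup C) = 0 := by
  refine measure_null_of_locally_null _ fun x hx => ?_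
  have h1 : ∃ r > 0, volume (C ∩ ball x r) = 0 := by
    by_contra hcon
    push Not at hcon
    exact hx.2 ⟨hx.1, hcon⟩
  obtain ⟨r, hr, h2⟩ := h1
  refine ⟨C ∩ ball x r, ?_, h2⟩
  rw [mem_nhdsWithin]
  exact ⟨ball x r, isOpen_ball, mem_ball_self hr, fun y hy => ⟨hy.2.1, hy.1⟩⟩

theorem volume_Sup_inter {C V : Set ℝ} (h : volume (C ∩ V) ≠ 0) : volume (Sup C ∩ V) ≠ 0 := by
  intro h0
  apply h
  refine measure_mono_null (t := (Sup C ∩ V) ∪ (C \ Sup C)) ?_
    (measure_union_null h0 (volume_diff_Sup C))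
  intro x hx
  by_cases hs : x ∈ Sup C
  · exact Or.inl ⟨hs, hx.2⟩
  · exact Or.inr ⟨hx.1, hs⟩

theorem Sys.mstep (s : Sys) {C : Set ℝ} (hC : C ⊆ Set.Ioo 0 1) (τ : ℕ) {a : St}
    (ha : s.Valid a) (haC : ∀ x ∈ a.L, x ∈ Sup C) :
    ∃ b x0 t x1 x2, s.Valid b ∧ (∀ x ∈ b.L, x ∈ Sup C) ∧ s.Rel Set.univ τ a b x0 t x1 x2 := by
  classical
  obtain ⟨x0, t, hL⟩ : ∃ x0 t, a.L = x0 :: t := List.exists_cons_of_ne_nil ha.ne
  have hx0 : x0 ∈ a.L := by rw [hL]; exact List.mem_cons_self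
  have hD0 : volume (Sup C ∩ ball x0 a.ρ) ≠ 0 := volume_Sup_inter ((haC x0 hx0).2 _ ha.pos)
  have hD1 : Sup C ∩ ball x0 a.ρ ⊆ Set.Ioo 0 1 := fun x hx => hC hx.1.1
  obtain ⟨x1, hx1, hx1S, hx1n, m1, hm1, hi1⟩ := s.new_point' ha.inv hD1 hD0
  obtain ⟨x2, hx2, hx2S, hx2n, m2, hm2, hi2⟩ := s.new_point' hi1 hD1 hD0
  have hx12 : x1 ≠ x2 := fun h => hx2S (by rw [h]; exact Finset.mem_insert_self _ _)
  have hx1L : x1 ∉ a.L := fun h => hx1S (List.mem_toFinset.2 h)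
  have hx2L : x2 ∉ a.L := fun h => hx2S (Finset.mem_insert_of_mem (List.mem_toFinset.2 h))
  set L' : List ℝ := t ++ [x1, x2] with hL'
  have hmem : ∀ z ∈ L', z ∈ t ∨ z = x1 ∨ z = x2 := by
    intro z hz
    simpa [hL'] using hz
  have htL : ∀ z ∈ t, z ∈ a.L := by
    intro z hz
    rw [hL]
    exact List.mem_cons_of_mem _ hz
  have hnint : ∀ x ∈ L', ∀ e i (z : ℤ), x * s.B e i ≠ z := by
    intro z hz
    rcases hmem z hz with h | h | h
    · exact ha.nint z (htL z h)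
    · rw [h]; exact hx1n
    · rw [h]; exact hx2n
  have hsubF : L'.toFinset ⊆ insert x2 (insert x1 a.L.toFinset) := by
    intro z hz
    rcases hmem z (List.mem_toFinset.1 hz) with h | h | h
    · exact Finset.mem_insert_of_mem (Finset.mem_insert_of_mem (List.mem_toFinset.2 (htL z h)))
    · rw [h]; exact Finset.mem_insert_of_mem (Finset.mem_insert_self _ _)
    · rw [h]; exact Finset.mem_insert_self _ _
  let m' : ℕ → ℕ := fun e => m2 e + 1
  -- the radius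
  have e1 : ∀ᶠ r in 𝓝[>] (0 : ℝ), 0 < r ∧ r ≤ a.ρ / 2 := by
    filter_upwards [Ioo_mem_nhdsGT (half_pos ha.pos)] with r hr
    exact ⟨hr.1, hr.2.le⟩
  have e2 : ∀ᶠ r in 𝓝[>] (0 : ℝ), ∀ y ∈ closedBall x1 r, y ∈ ball x0 a.ρ :=
    ev_ball (isOpen_ball.mem_nhds hx1.2)
  have e3 : ∀ᶠ r in 𝓝[>] (0 : ℝ), ∀ y ∈ closedBall x2 r, y ∈ ball x0 a.ρ :=
    ev_ball (isOpen_ball.mem_nhds hx2.2)
  have e4 : ∀ᶠ r in 𝓝[>] (0 : ℝ), ∀ z ∈ L'.toFinset, ∀ z' ∈ L'.toFinset, z ≠ z' →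
      Disjoint (closedBall z r) (closedBall z' r) := by
    rw [Filter.eventually_all_finset]
    intro z _
    rw [Filter.eventually_all_finset]
    intro z' _
    by_cases hzz : z = z'
    · exact Filter.Eventually.of_forall fun r h => absurd hzz h
    · have h1 : 0 < dist z z' / 2 := half_pos (dist_pos.2 hzz)
      filter_upwards [Ioo_mem_nhdsGT h1] with r hr _
      refine closedBall_disjoint_closedBall ?_
      linarith [hr.2]
  have e5 : ∀ᶠ r in 𝓝[>] (0 : ℝ), ∀ e ∈ Finset.range (τ + 1), ∀ i ∈ Finset.range (m' e),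
      ∀ z ∈ L'.toFinset, ∀ y ∈ closedBall z r, s.fl e i y = s.fl e i z := by
    rw [Filter.eventually_all_finset]
    intro e _
    rw [Filter.eventually_all_finset]
    intro i _
    rw [Filter.eventually_all_finset]
    intro z hz
    exact ev_ball (s.fl_ev (hnint z (List.mem_toFinset.1 hz) e i))
  obtain ⟨r, ⟨hr0, hr1⟩, hr2, hr3, hr4, hr5⟩ :=
    (e1.and (e2.and (e3.and (e4.and e5)))).exists
  refine ⟨⟨L', r, m'⟩, x0, t, x1, x2, ?_, ?_, ?_⟩
  · refine ⟨by simp [hL'], ?_, hr0, ?_, ?_, ?_, hnint⟩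
    · have hnd : (x0 :: t).Nodup := hL ▸ ha.nodup
      have h1 : t.Nodup := (List.nodup_cons.1 hnd).2
      rw [hL', List.nodup_append]
      refine ⟨h1, by simp [hx12], ?_⟩
      intro z hz z' hz' hzz
      have h2 : z' = x1 ∨ z' = x2 := by simpa using hz'
      rcases h2 with h2 | h2
      · exact hx1L (by rw [← h2, ← hzz]; exact htL z hz)
      · exact hx2L (by rw [← h2, ← hzz]; exact htL z hz)
    · intro z hz y hy
      rcases hmem z hz with h | h | h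
      · refine ha.unit z (htL z h) (closedBall_subset_closedBall ?_ hy)
        change r ≤ a.ρ
        linarith [ha.pos]
      · exact ha.unit x0 hx0 (ball_subset_closedBall (hr2 y (by rw [← h]; exact hy)))
      · exact ha.unit x0 hx0 (ball_subset_closedBall (hr3 y (by rw [← h]; exact hy)))
    · intro z hz z' hz' hne
      exact hr4 z (List.mem_toFinset.2 hz) z' (List.mem_toFinset.2 hz') hne
    · intro e
      exact Sys.inv_mono (hi2 e) hsubF (Nat.le_succ _)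
  · intro z hz
    rcases hmem z hz with h | h | h
    · exact haC z (htL z h)
    · rw [h]; exact hx1.1
    · rw [h]; exact hx2.1
  · refine ⟨hL, rfl, hx12, ?_, ?_, hr1, ?_, ?_⟩
    · intro y hy
      exact ⟨ball_subset_closedBall (hr2 y hy), Set.mem_univ _⟩
    · intro y hy
      exact ⟨ball_subset_closedBall (hr3 y hy), Set.mem_univ _⟩
    · intro e
      have h1 := hm1 e
      have h2 := hm2 e
      change a.m e < m2 e + 1
      omega
    · intro e he i hi z hz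
      exact hr5 e (Finset.mem_range.2 (by omega)) i (Finset.mem_range.2 hi) z
        (List.mem_toFinset.2 hz)

theorem Sys.mstart (s : Sys) {C : Set ℝ} (hC : C ⊆ Set.Ioo 0 1) (hC0 : volume C ≠ 0) :
    ∃ a : St, s.Valid a ∧ ∀ x ∈ a.L, x ∈ Sup C := by
  classical
  have h0 : volume (Sup C) ≠ 0 := by
    have h1 := volume_Sup_inter (C := C) (V := Set.univ) (by rwa [Set.inter_univ])
    rwa [Set.inter_univ] at h1
  obtain ⟨x, hx, _, hxn, m', _, hi⟩ := s.new_point' (S := ∅) (m := fun _ => 0)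
    (fun e => s.inv_empty e) (fun x hx => hC hx.1) h0
  have hx01 := hC hx.1
  have e1 : ∀ᶠ r in 𝓝[>] (0 : ℝ), ∀ y ∈ closedBall x r, y ∈ Set.Ioo (0 : ℝ) 1 :=
    ev_ball (isOpen_Ioo.mem_nhds hx01)
  have e2 : ∀ᶠ r in 𝓝[>] (0 : ℝ), 0 < r := by
    filter_upwards [self_mem_nhdsWithin] with r hr
    exact hr
  obtain ⟨r, hr1, hr2⟩ := (e1.and e2).exists
  refine ⟨⟨[x], r, m'⟩, ⟨by simp, by simp, hr2, ?_, ?_, ?_, ?_⟩, ?_⟩
  · intro z hz y hy
    have hz' : z = x := by simpa using hz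
    subst hz'
    exact hr1 y hy
  · intro z hz z' hz' hne
    have h1 : z = x := by simpa using hz
    have h2 : z' = x := by simpa using hz'
    exact absurd (h1.trans h2.symm) hne
  · intro e
    simpa using hi e
  · intro z hz
    have h1 : z = x := by simpa using hz
    rw [h1]
    exact hxn
  · intro z hz
    have h1 : z = x := by simpa using hz
    rw [h1]
    exact hx

theorem Sys.exists_mseq (s : Sys) {C : Set ℝ} (hC : C ⊆ Set.Ioo 0 1) (hC0 : volume C ≠ 0) :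
    ∃ a : ℕ → St, (∀ k, s.Valid (a k)) ∧ (∀ k, ∀ x ∈ (a k).L, x ∈ Sup C) ∧
      ∀ k, ∃ x0 t x1 x2, s.Rel Set.univ k (a k) (a (k + 1)) x0 t x1 x2 := by
  obtain ⟨a0, h0, h0'⟩ := s.mstart hC hC0
  have hstep : ∀ k (a : {a : St // s.Valid a ∧ ∀ x ∈ a.L, x ∈ Sup C}),
      ∃ b : {a : St // s.Valid a ∧ ∀ x ∈ a.L, x ∈ Sup C},
      ∃ x0 t x1 x2, s.Rel Set.univ k a.1 b.1 x0 t x1 x2 := by
    intro k a
    obtain ⟨b, x0, t, x1, x2, hb, hb', hr⟩ := s.mstep hC k a.2.1 a.2.2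
    exact ⟨⟨b, hb, hb'⟩, x0, t, x1, x2, hr⟩
  choose nx hnx using hstep
  let A : ℕ → {a : St // s.Valid a ∧ ∀ x ∈ a.L, x ∈ Sup C} :=
    fun k => Nat.rec ⟨a0, h0, h0'⟩ (fun k a => nx k a) k
  exact ⟨fun k => (A k).1, fun k => (A k).2.1, fun k => (A k).2.2, fun k => hnx k (A k)⟩

/-- **The scheme within a compact set of positive measure.** -/
theorem Sys.mscheme (s : Sys) {C : Set ℝ} (hC : C ⊆ Set.Ioo 0 1) (hC0 : volume C ≠ 0)
    (hCc : IsClosed C) :
    ∃ f : (ℕ → Bool) → ℝ, Function.Injective f ∧ (∀ α, f α ∈ C) ∧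
      ∀ (e : ℕ) (A : ℕ → Finset ℤ) (k : ℕ), k ≤ s.q e → (∀ i, A i ∈ s.AA e i) →
        {i | (T (s.KS e i) (A i)).card * s.M e i ^ k ≤ s.M e i ^ s.q e}.Infinite →
        {α | ¬ {i | (T (s.KS e i) (insert (s.fl e i (f α)) (A i))).card *
          s.M e i ^ (k + 1) ≤ s.M e i ^ s.q e}.Infinite}.Finite := by
  classical
  obtain ⟨a, hv, haC, hr⟩ := s.exists_mseq hC hC0
  have hr' : ∀ k, ∃ x0 t x1 x2,
      s.Rel ((fun _ : ℕ => (Set.univ : Set ℝ)) k) k (a k) (a (k + 1)) x0 t x1 x2 := hr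
  have hP := perfect_PP hv hr'
  have hne : (PP a).Nonempty := by
    obtain ⟨z, t, hL⟩ := List.exists_cons_of_ne_nil (hv 0).ne
    obtain ⟨y, hy, _⟩ := exists_mem_PP hv hr' 0 z (by rw [hL]; exact List.mem_cons_self)
    exact ⟨y, hy⟩
  obtain ⟨f, hf1, _, hf2⟩ := hP.exists_nat_bool_injection hne
  have hfP : ∀ α, f α ∈ PP a := fun α => hf1 ⟨α, rfl⟩
  refine ⟨f, hf2, fun α => ?_, fun e A k hk hA hG => ?_⟩
  · rw [← hCc.closure_eq, Metric.mem_closure_iff]
    intro ε hε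
    obtain ⟨k, hk⟩ := ((rho_le hv hr').eventually (gt_mem_nhds hε)).exists
    obtain ⟨z, hz, hy⟩ := Set.mem_iInter.1 (hfP α) k
    exact ⟨z, (haC k z hz).1, lt_of_le_of_lt hy hk⟩
  · have h1 := key hv hr' e A k hk hA hG
    refine (h1.preimage (f := f) hf2.injOn).subset ?_
    intro α hα
    exact ⟨hfP α, hα⟩

end Pool.Agent.TH724.BD
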