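import Pool.Agent.TH724.BD.Count

/-!
# One new point which is good at all sufficiently small scales
-/

set_option autoImplicit false

namespace Pool.Agent.TH724.BD

open MeasureTheory

/-- a family of sequences of scales -/
structure Sys where
  q : ℕ → ℕ
  M : ℕ → ℕ → ℕ
  KS : ℕ → ℕ → Finset ℤ
  hM : ∀ e i, 2 ^ (i + 1) ≤ M e i
  hK : ∀ e i, (KS e i).card * M e i ^ 3 ≤ M e i ^ q e

/-- the scale -/
def Sys.B (s : Sys) (e i : ℕ) : ℕ := s.M e i ^ s.q e

/-- the integer part at a scale -/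
noncomputable def Sys.fl (s : Sys) (e i : ℕ) (x : ℝ) : ℤ := ⌊x * s.B e i⌋

/-- the exponent of the count -/
def Sys.Q (s : Sys) (e : ℕ) : ℕ := (s.q e + 1) * s.q e

/-- the relevant sets of integers -/
noncomputable def Sys.AA (s : Sys) (e i : ℕ) : Finset (Finset ℤ) :=
  ((Finset.Icc (0 : ℤ) (s.B e i)).powerset).filter (fun A => A.Nonempty ∧ A.card ≤ s.q e)

open Classical in
/-- the invariant -/
def Sys.Inv (s : Sys) (S : Finset ℝ) (e m : ℕ) : Prop :=
  ∀ i, m ≤ i → ∀ R ⊆ S, ∀ k, k ≤ s.q e →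
    ((s.AA e i).filter (fun A => ∀ x ∈ R,
      Bad (s.q e) (s.M e i) (s.KS e i) k A (s.fl e i x))).card * s.M e i ^ R.card ≤
        s.M e i ^ s.Q e

theorem Sys.M_pos (s : Sys) (e i : ℕ) : 0 < s.M e i :=
  lt_of_lt_of_le (pow_pos two_pos _) (s.hM e i)

theorem Sys.two_le_M (s : Sys) (e i : ℕ) : 2 ≤ s.M e i :=
  le_trans (by rw [pow_succ]; nlinarith [Nat.one_le_two_pow (n := i)]) (s.hM e i)

theorem Sys.B_pos (s : Sys) (e i : ℕ) : 0 < s.B e i := pow_pos (s.M_pos e i) _

theorem Sys.card_AA (s : Sys) (e i : ℕ) : (s.AA e i).card ≤ s.M e i ^ s.Q e := by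
  refine (card_small _ _).trans ?_
  have h1 : s.B e i + 1 ≤ s.M e i ^ (s.q e + 1) := by
    have h2 := s.two_le_M e i
    have h3 := s.B_pos e i
    have h4 : s.M e i ^ (s.q e + 1) = s.B e i * s.M e i := by
      rw [pow_succ, Sys.B]
    rw [h4]
    nlinarith
  calc (s.B e i + 1) ^ s.q e ≤ (s.M e i ^ (s.q e + 1)) ^ s.q e := Nat.pow_le_pow_left h1 _
    _ = _ := by rw [← pow_mul, Sys.Q]

theorem Sys.inv_mono {s : Sys} {S S' : Finset ℝ} {e m m' : ℕ} (h : s.Inv S e m) (hS : S' ⊆ S)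
    (hm : m ≤ m') : s.Inv S' e m' :=
  fun i hi R hR k hk => h i (hm.trans hi) R (hR.trans hS) k hk

theorem Sys.inv_empty (s : Sys) (e : ℕ) : s.Inv ∅ e 0 := by
  classical
  intro i _ R hR k _
  have h1 : R = ∅ := Finset.subset_empty.1 hR
  subst h1
  rw [Finset.card_empty, pow_zero, mul_one]
  exact (Finset.card_filter_le _ _).trans (s.card_AA e i)

theorem tsum_aux (a : ℝ) (ha : 0 ≤ a) :
    ∑' i : ℕ, ENNReal.ofReal (a * (1 / 2) ^ i) = ENNReal.ofReal (a * 2) := by
  rw [← ENNReal.ofReal_tsum_of_nonneg (fun i => by positivity)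
    (summable_geometric_two.mul_left a), tsum_mul_left, tsum_geometric_two]

theorem Sys.new_point (s : Sys) {S : Finset ℝ} {m : ℕ → ℕ} (hS : ∀ e, s.Inv S e (m e))
    {u v : ℝ} (huv : u < v) (hu : 0 ≤ u) (hv : v ≤ 1) :
    ∃ x ∈ Set.Ioo u v, x ∉ S ∧ (∀ e i (z : ℤ), x * s.B e i ≠ z) ∧
      ∃ m' : ℕ → ℕ, (∀ e, m e ≤ m' e) ∧ ∀ e, s.Inv (insert x S) e (m' e) := by
  classical
  let I : ℕ → Finset (Finset ℝ × ℕ) := fun e => S.powerset ×ˢ Finset.range (s.q e + 1)
  let D : ℕ → ℕ → Finset ℝ × ℕ → Finset (Finset ℤ) := fun e i p =>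
    (s.AA e i).filter (fun A => ∀ x ∈ p.1, Bad (s.q e) (s.M e i) (s.KS e i) p.2 A (s.fl e i x))
  let V0 : ℕ → ℕ → Finset ℝ × ℕ → Finset ℤ := fun e i p =>
    (Finset.Icc (0 : ℤ) (s.B e i)).filter (fun c => s.M e i ^ s.Q e <
      ((D e i p).filter (fun A => Bad (s.q e) (s.M e i) (s.KS e i) p.2 A c)).card *
        s.M e i ^ (p.1.card + 1))
  let V : ℕ → ℕ → Finset ℤ := fun e i => (I e).biUnion (V0 e i)
  have hV : ∀ e i, m e ≤ i → (V e i).card * s.M e i ≤ (I e).card * s.B e i := by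
    intro e i hi
    calc (V e i).card * s.M e i ≤ (∑ p ∈ I e, (V0 e i p).card) * s.M e i :=
          Nat.mul_le_mul_right _ Finset.card_biUnion_le
      _ = ∑ p ∈ I e, (V0 e i p).card * s.M e i := Finset.sum_mul ..
      _ ≤ ∑ p ∈ I e, s.B e i := by
          refine Finset.sum_le_sum fun p hp => ?_
          simp only [I, Finset.mem_product, Finset.mem_powerset, Finset.mem_range] at hp
          exact count2 (s.M_pos e i) (s.hK e i) (hS e i hi p.1 hp.1 p.2 (by omega))
      _ = _ := by simp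
  let E : ℕ → ℕ → Set ℝ := fun e i =>
    ⋃ c ∈ V e i, Set.Ico ((c : ℝ) / s.B e i) (((c : ℝ) + 1) / s.B e i)
  have hE : ∀ e i, m e ≤ i → volume (E e i) ≤ ENNReal.ofReal ((I e).card / 2 ^ (i + 1)) := by
    intro e i hi
    have hB : (0 : ℝ) < s.B e i := by exact_mod_cast s.B_pos e i
    have hM : (0 : ℝ) < s.M e i := by exact_mod_cast s.M_pos e i
    calc volume (E e i) ≤ ∑ c ∈ V e i,
          volume (Set.Ico ((c : ℝ) / s.B e i) (((c : ℝ) + 1) / s.B e i)) :=
          measure_biUnion_finset_le _ _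
      _ = ∑ c ∈ V e i, ENNReal.ofReal (1 / s.B e i) := by
          refine Finset.sum_congr rfl fun c _ => ?_
          rw [Real.volume_Ico]
          congr 1
          ring
      _ = ENNReal.ofReal ((V e i).card / s.B e i) := by
          rw [Finset.sum_const, nsmul_eq_mul, ← ENNReal.ofReal_natCast,
            ← ENNReal.ofReal_mul (Nat.cast_nonneg _)]
          congr 1
          ring
      _ ≤ _ := by
          refine ENNReal.ofReal_le_ofReal ?_
          rw [div_le_div_iff₀ hB (by positivity)]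
          have h1 : ((V e i).card : ℝ) * s.M e i ≤ (I e).card * s.B e i := by
            exact_mod_cast hV e i hi
          have h2 : (2 : ℝ) ^ (i + 1) ≤ s.M e i := by exact_mod_cast s.hM e i
          exact (mul_le_mul_of_nonneg_left h2 (Nat.cast_nonneg _)).trans h1
  -- the thresholds
  have hthr : ∀ e, ∃ n : ℕ, ((I e).card : ℝ) * (1 / 2) ^ n < (v - u) / 4 * (1 / 2) ^ e := by
    intro e
    have h1 : Filter.Tendsto (fun n : ℕ => ((I e).card : ℝ) * (1 / 2) ^ n) Filter.atTop
        (nhds (((I e).card : ℝ) * 0)) :=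
      (tendsto_pow_atTop_nhds_zero_of_lt_one (by norm_num) (by norm_num)).const_mul _
    rw [mul_zero] at h1
    have h2 : (0 : ℝ) < (v - u) / 4 * (1 / 2) ^ e := by
      have : 0 < v - u := by linarith
      positivity
    exact (h1.eventually (gt_mem_nhds h2)).exists
  choose n hn using hthr
  let m' : ℕ → ℕ := fun e => max (m e) (n e)
  have hE2 : ∀ e, volume (⋃ i, E e (m' e + i)) ≤ ENNReal.ofReal ((v - u) / 4 * (1 / 2) ^ e) := by
    intro e
    calc volume (⋃ i, E e (m' e + i)) ≤ ∑' i, volume (E e (m' e + i)) := measure_iUnion_le _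
      _ ≤ ∑' i : ℕ, ENNReal.ofReal (((I e).card / 2 ^ (m' e + 1)) * (1 / 2) ^ i) := by
          refine ENNReal.tsum_le_tsum fun i => ?_
          refine (hE e (m' e + i) (le_trans (le_max_left _ _) (Nat.le_add_right _ _))).trans ?_
          refine ENNReal.ofReal_le_ofReal (le_of_eq ?_)
          rw [pow_add, pow_add, pow_one, one_div, inv_pow, pow_add]
          field_simp
      _ = ENNReal.ofReal (((I e).card / 2 ^ (m' e + 1)) * 2) := tsum_aux _ (by positivity)
      _ ≤ _ := by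
          refine ENNReal.ofReal_le_ofReal (le_trans ?_ (hn e).le)
          have h1 : ((1 : ℝ) / 2) ^ (m' e) ≤ (1 / 2) ^ (n e) :=
            pow_le_pow_of_le_one (by norm_num) (by norm_num) (le_max_right _ _)
          have h2 : ((I e).card : ℝ) / 2 ^ (m' e + 1) * 2 = (I e).card * (1 / 2) ^ (m' e) := by
            rw [pow_succ, one_div, inv_pow]
            field_simp
          rw [h2]
          exact mul_le_mul_of_nonneg_left h1 (Nat.cast_nonneg _)
  have hE3 : volume (⋃ e, ⋃ i, E e (m' e + i)) < ENNReal.ofReal (v - u) := by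
    calc volume (⋃ e, ⋃ i, E e (m' e + i)) ≤ ∑' e, volume (⋃ i, E e (m' e + i)) :=
          measure_iUnion_le _
      _ ≤ ∑' e : ℕ, ENNReal.ofReal ((v - u) / 4 * (1 / 2) ^ e) :=
          ENNReal.tsum_le_tsum hE2
      _ = ENNReal.ofReal ((v - u) / 4 * 2) := tsum_aux _ (by linarith)
      _ < _ := by
          rw [ENNReal.ofReal_lt_ofReal_iff (by linarith)]
          linarith
  let N : Set ℝ := (S : Set ℝ) ∪ ⋃ p : ℕ × ℕ × ℤ, {(p.2.2 : ℝ) / s.B p.1 p.2.1}
  have hN : volume N = 0 := by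
    refine Set.Countable.measure_zero ?_ _
    exact (Finset.countable_toSet S).union (Set.countable_iUnion fun p =>
      Set.countable_singleton _)
  obtain ⟨x, hx1, hx2⟩ : ∃ x ∈ Set.Ioo u v, x ∉ (⋃ e, ⋃ i, E e (m' e + i)) ∪ N := by
    by_contra hcon
    push Not at hcon
    have h1 : Set.Ioo u v ⊆ (⋃ e, ⋃ i, E e (m' e + i)) ∪ N := fun x hx => hcon x hx
    have h2 := (measure_mono (μ := volume) h1).trans (measure_union_le _ _)
    rw [hN, add_zero, Real.volume_Ioo] at h2
    exact absurd hE3 (not_lt.2 h2)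
  have hx3 : x ∉ N := fun h => hx2 (Or.inr h)
  refine ⟨x, hx1, fun h => hx3 (Or.inl h), fun e i z h => ?_, m', fun e => le_max_left _ _,
    fun e i hi R hR k hk => ?_⟩
  · refine hx3 (Or.inr (Set.mem_iUnion.2 ⟨(e, i, z), ?_⟩))
    have hB : (s.B e i : ℝ) ≠ 0 := by exact_mod_cast (s.B_pos e i).ne'
    simp only [Set.mem_singleton_iff]
    rw [← h]
    field_simp
  · have hmi : m e ≤ i := le_trans (le_max_left _ _) hi
    by_cases hxR : x ∈ R
    swap
    · refine hS e i hmi R (fun y hy => ?_) k hk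
      rcases Finset.mem_insert.1 (hR hy) with h | h
      · rw [h] at hy; exact absurd hy hxR
      · exact h
    have hR' : R.erase x ⊆ S := by
      intro y hy
      rcases Finset.mem_insert.1 (hR (Finset.mem_of_mem_erase hy)) with h | h
      · exact absurd h (Finset.ne_of_mem_erase hy)
      · exact h
    have hB : (0 : ℝ) < s.B e i := by exact_mod_cast s.B_pos e i
    have hc0 : (0 : ℤ) ≤ s.fl e i x := by
      rw [Sys.fl]
      exact Int.floor_nonneg.2 (mul_nonneg (hu.trans hx1.1.le) hB.le)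
    have hcB : s.fl e i x ≤ s.B e i := by
      rw [Sys.fl]
      have h1 : x * s.B e i ≤ s.B e i := by
        have : x ≤ 1 := hx1.2.le.trans hv
        nlinarith
      have h2 : (⌊x * s.B e i⌋ : ℝ) ≤ s.B e i := (Int.floor_le _).trans h1
      exact_mod_cast h2
    have hcV : s.fl e i x ∉ V e i := by
      intro hmem
      refine hx2 (Or.inl (Set.mem_iUnion.2 ⟨e, Set.mem_iUnion.2 ⟨i - m' e, ?_⟩⟩))
      have h1 : m' e + (i - m' e) = i := by omega
      rw [h1]
      refine Set.mem_iUnion₂.2 ⟨s.fl e i x, hmem, ?_, ?_⟩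
      · rw [div_le_iff₀ hB]
        exact Int.floor_le _
      · rw [lt_div_iff₀ hB]
        exact Int.lt_floor_add_one _
    have hcV0 : s.fl e i x ∉ V0 e i (R.erase x, k) := by
      intro hmem
      refine hcV (Finset.mem_biUnion.2 ⟨(R.erase x, k), ?_, hmem⟩)
      simp only [I, Finset.mem_product, Finset.mem_powerset, Finset.mem_range]
      exact ⟨hR', by omega⟩
    have h2 : ¬ (s.M e i ^ s.Q e < ((D e i (R.erase x, k)).filter (fun A =>
        Bad (s.q e) (s.M e i) (s.KS e i) k A (s.fl e i x))).card *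
          s.M e i ^ ((R.erase x).card + 1)) := by
      intro h
      exact hcV0 (Finset.mem_filter.2 ⟨Finset.mem_Icc.2 ⟨hc0, hcB⟩, h⟩)
    have h3 : (s.AA e i).filter (fun A => ∀ y ∈ R,
        Bad (s.q e) (s.M e i) (s.KS e i) k A (s.fl e i y)) =
        (D e i (R.erase x, k)).filter (fun A =>
          Bad (s.q e) (s.M e i) (s.KS e i) k A (s.fl e i x)) := by
      ext A
      simp only [D, Finset.mem_filter]
      constructor
      · rintro ⟨hA, h⟩
        exact ⟨⟨hA, fun y hy => h y (Finset.mem_of_mem_erase hy)⟩, h x hxR⟩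
      · rintro ⟨⟨hA, h⟩, h'⟩
        refine ⟨hA, fun y hy => ?_⟩
        by_cases hyx : y = x
        · rw [hyx]; exact h'
        · exact h y (Finset.mem_erase.2 ⟨hyx, hy⟩)
    have h4 : R.card = (R.erase x).card + 1 := (Finset.card_erase_add_one hxR).symm
    rw [h3, h4]
    exact not_lt.1 h2

end Pool.Agent.TH724.BD
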