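import Pool.Agent.TH724.BD.Tree
import Pool.Agent.H458R5.Group

/-!
# The nonmeagre set
-/

set_option autoImplicit false

namespace Pool.Agent.TH724.BD

open Set Topology Cardinal Pool.Agent.H458R5

open Classical in
/-- a finite set of reals is good if its set of common translations is small at infinitely many
scales -/
def Sys.Good (s : Sys) (e : ℕ) (F : Finset ℝ) : Prop :=
  {i | (T (s.KS e i) (F.image (s.fl e i))).card * s.M e i ^ F.card ≤ s.M e i ^ s.q e}.Infinite

theorem Sys.fl_mem (s : Sys) (e i : ℕ) {x : ℝ} (hx : x ∈ Ioo (0 : ℝ) 1) :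
    s.fl e i x ∈ Finset.Icc (0 : ℤ) (s.B e i) := by
  have hB : (0 : ℝ) < s.B e i := by exact_mod_cast s.B_pos e i
  rw [Finset.mem_Icc]
  constructor
  · exact Int.floor_nonneg.2 (mul_nonneg hx.1.le hB.le)
  · have h1 : x * s.B e i ≤ s.B e i := by nlinarith [hx.2]
    have h2 : (⌊x * s.B e i⌋ : ℝ) ≤ s.B e i := (Int.floor_le _).trans h1
    exact_mod_cast h2

theorem Sys.image_mem (s : Sys) (e i : ℕ) {F : Finset ℝ} (hF : ∀ x ∈ F, x ∈ Ioo (0 : ℝ) 1)
    (hne : F.Nonempty) (hc : F.card ≤ s.q e) : F.image (s.fl e i) ∈ s.AA e i := by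
  classical
  rw [Sys.AA, Finset.mem_filter, Finset.mem_powerset]
  refine ⟨fun c hc => ?_, hne.image _, Finset.card_image_le.trans hc⟩
  obtain ⟨x, hx, rfl⟩ := Finset.mem_image.1 hc
  exact s.fl_mem e i (hF x hx)

theorem Sys.good_singleton (s : Sys) (e : ℕ) (x : ℝ) : s.Good e {x} := by
  classical
  have h1 : {i | (T (s.KS e i) (({x} : Finset ℝ).image (s.fl e i))).card *
      s.M e i ^ ({x} : Finset ℝ).card ≤ s.M e i ^ s.q e} = Set.univ := by
    ext i
    simp only [Set.mem_univ, iff_true, Set.mem_ofPred_eq]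
    rw [Finset.image_singleton, Finset.card_singleton, pow_one]
    have h2 : (T (s.KS e i) {s.fl e i x}).card ≤ (s.KS e i).card := by
      refine Finset.card_le_card_of_injOn (fun b => s.fl e i x - b) ?_ ?_
      · intro b hb
        exact (mem_T (Finset.singleton_nonempty _)).1 hb _ (Finset.mem_singleton_self _)
      · intro b _ b' _ h
        simpa using h
    calc (T (s.KS e i) {s.fl e i x}).card * s.M e i ≤ (s.KS e i).card * s.M e i ^ 3 := by
          refine Nat.mul_le_mul h2 ?_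
          exact Nat.le_self_pow (by norm_num) _
      _ ≤ _ := s.hK e i
  rw [Sys.Good, h1]
  exact Set.infinite_univ

/-- the property of the next point -/
def Sys.Next (s : Sys) (U : ℕ → Set ℝ) (S : Set ℝ) (x : ℝ) : Prop :=
  x ∈ Ioo (0 : ℝ) 1 ∧ (∀ k, x ∈ U k) ∧ x ∉ S ∧ ∀ (e : ℕ) (F : Finset ℝ), (F : Set ℝ) ⊆ S →
    F.Nonempty → F.card ≤ s.q e → s.Good e F → s.Good e (insert x F)

theorem mk_finset_lt {S : Type} (hS : #S < 𝔠) : #(Finset S) < 𝔠 := by
  rcases finite_or_infinite S with h | h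
  · exact (lt_aleph0_of_finite _).trans aleph0_lt_continuum
  · rw [mk_finset_of_infinite]
    exact hS

theorem Sys.exists_next (s : Sys) {U : ℕ → Set ℝ} (hU : ∀ k, IsOpen (U k))
    (hU' : ∀ k, Dense (U k)) {S : Set ℝ} (hS : #S < 𝔠) (hS1 : S ⊆ Ioo 0 1) :
    ∃ x, s.Next U S x := by
  classical
  obtain ⟨f, hf1, hf2, hf3, hf4⟩ := s.scheme hU hU'
  by_contra hcon
  push Not at hcon
  let J := S ⊕ (ℕ × Finset S)
  let emb : Finset S → Finset ℝ := fun F => F.map (Function.Embedding.subtype _)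
  let R : J → (ℕ → Bool) → Prop := fun p α => match p with
    | Sum.inl x => f α = x
    | Sum.inr (e, F) => (emb F).Nonempty ∧ (emb F).card ≤ s.q e ∧ s.Good e (emb F) ∧
        f α ∉ emb F ∧ ¬ s.Good e (insert (f α) (emb F))
  have h1 : ∀ α, ∃ p : J, R p α := by
    intro α
    by_cases hα : f α ∈ S
    · exact ⟨Sum.inl ⟨f α, hα⟩, rfl⟩
    · have h2 := hcon (f α)
      rw [Sys.Next] at h2
      push Not at h2
      obtain ⟨e, F, hF1, hF2, hF3, hF4, hF5⟩ := h2 (hf2 α) (hf3 α) hα
      have h3 : emb (F.subtype (· ∈ S)) = F := by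
        ext y
        simp only [emb, Finset.mem_map, Finset.mem_subtype, Function.Embedding.coe_subtype]
        constructor
        · rintro ⟨z, hz, rfl⟩
          exact hz
        · intro hy
          exact ⟨⟨y, hF1 hy⟩, hy, rfl⟩
      refine ⟨Sum.inr (e, F.subtype (· ∈ S)), ?_⟩
      change (emb (F.subtype (· ∈ S))).Nonempty ∧ _
      rw [h3]
      exact ⟨hF2, hF3, hF4, fun h => hα (hF1 h), hF5⟩
  choose g hg using h1
  have h2 : ∀ p, (g ⁻¹' {p}).Finite := by
    intro p
    refine Set.Finite.subset (s := {α | R p α}) ?_ ?_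
    · rcases p with x | ⟨e, F⟩
      · refine Set.Subsingleton.finite ?_
        intro α hα β hβ
        exact hf1 ((show f α = x from hα).trans (show f β = x from hβ).symm)
      · by_cases hp : (emb F).Nonempty ∧ (emb F).card ≤ s.q e ∧ s.Good e (emb F)
        · obtain ⟨hp1, hp2, hp3⟩ := hp
          have hF01 : ∀ x ∈ emb F, x ∈ Ioo (0 : ℝ) 1 := by
            intro x hx
            simp only [emb, Finset.mem_map, Function.Embedding.coe_subtype] at hx
            obtain ⟨z, _, rfl⟩ := hx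
            exact hS1 z.2
          refine (hf4 e (fun i => (emb F).image (s.fl e i)) (emb F).card hp2
            (fun i => s.image_mem e i hF01 hp1 hp2) hp3).subset ?_
          rintro α ⟨_, _, _, hα1, hα2⟩
          intro hinf
          apply hα2
          rw [Sys.Good, Finset.card_insert_of_notMem hα1]
          refine hinf.mono ?_
          intro i hi
          simp only [Set.mem_ofPred_eq] at hi ⊢
          rw [Finset.image_insert]
          exact hi
        · refine Set.finite_empty.subset ?_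
          rintro α ⟨hp1, hp2, hp3, _⟩
          exact hp ⟨hp1, hp2, hp3⟩
    · intro α hα
      have h3 : g α = p := hα
      rw [← h3]
      exact hg α
  have h5 : #(ℕ → Bool) ≤ #J * ℵ₀ :=
    mk_le_mk_mul_of_mk_preimage_le g fun p => (h2 p).countable.le_aleph0
  have h6 : #(ℕ → Bool) = 𝔠 := by simp
  have h7 : #J < 𝔠 := by
    simp only [J]
    rw [mk_sum, Cardinal.lift_id, Cardinal.lift_id, mk_prod, Cardinal.lift_id, Cardinal.lift_id,
      mk_nat]
    exact add_lt_of_lt aleph0_le_continuum hS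
      (mul_lt_of_lt aleph0_le_continuum aleph0_lt_continuum (mk_finset_lt hS))
  rw [h6] at h5
  exact absurd h5 (not_le.2 (mul_lt_of_lt aleph0_le_continuum h7 aleph0_lt_continuum))

section

variable {Λ : Type} [LinearOrder Λ] [WellFoundedLT Λ] (s : Sys) (task : Λ → Task)

/-- the next point -/
noncomputable def nx (t : Task) (S : Set ℝ) : ℝ :=
  open Classical in
  if h : ∃ x, s.Next (fun k => (t k).1) S x then h.choose else 0

/-- the points -/
noncomputable def pt : Λ → ℝ :=
  wellFounded_lt.fix fun γ ih => nx s (task γ) {a | a ∈ Ioo (0 : ℝ) 1 ∧ ∃ β, ∃ h : β < γ, ih β h = a}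

theorem pt_eq (γ : Λ) : pt s task γ = nx s (task γ) (Ioo (0 : ℝ) 1 ∩ pt s task '' Iio γ) := by
  rw [pt, WellFounded.fix_eq]
  congr 1
  ext a
  simp only [Set.mem_ofPred_eq, Set.mem_image, Set.mem_Iio, exists_prop, Set.mem_inter_iff]

end

/-- **The nonmeagre set.** -/
theorem Sys.exists_set (s : Sys) :
    ∃ X : Set ℝ, ¬ IsMeagre X ∧ ∀ (e : ℕ) (F : Finset ℝ), (F : Set ℝ) ⊆ X → F.Nonempty →
      F.card ≤ s.q e + 1 → s.Good e F := by
  classical
  let Λ := (𝔠 : Cardinal.{0}).ord.ToType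
  have hΛ : #Λ = 𝔠 := Cardinal.mk_ord_toType _
  have hΛ2 : ∀ γ : Λ, #(Iio γ) < 𝔠 := fun γ => Cardinal.mk_Iio_toType_ord_lt γ
  have hsurj : ∃ task : Λ → Task, Function.Surjective task := by
    have h1 : #Task ≤ #Λ := by rw [hΛ]; exact mk_task_le
    obtain ⟨e⟩ := h1
    have : Nonempty Task := ⟨fun _ => ⟨∅, isOpen_empty⟩⟩
    exact ⟨Function.invFun e, Function.invFun_surjective e.injective⟩
  obtain ⟨task, htask⟩ := hsurj
  let x : Λ → ℝ := pt s task
  have hx : ∀ γ, x γ ∈ Ioo (0 : ℝ) 1 →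
      s.Next (fun k => (task γ k).1) (Ioo (0 : ℝ) 1 ∩ x '' Iio γ) (x γ) := by
    intro γ hγ
    have h3 : x γ = nx s (task γ) (Ioo (0 : ℝ) 1 ∩ x '' Iio γ) := pt_eq s task γ
    rw [nx] at h3
    split_ifs at h3 with h
    · rw [h3]
      exact h.choose_spec
    · rw [h3] at hγ
      exact absurd hγ.1 (lt_irrefl _)
  have hx2 : ∀ γ, (∀ k, Dense (task γ k).1) → x γ ∈ Ioo (0 : ℝ) 1 := by
    intro γ hγ
    have h1 : #(Ioo (0 : ℝ) 1 ∩ x '' Iio γ : Set ℝ) < 𝔠 :=
      (mk_le_mk_of_subset inter_subset_right).trans_lt (mk_image_le.trans_lt (hΛ2 γ))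
    have h2 := s.exists_next (fun k => (task γ k).2) hγ h1 inter_subset_left
    have h3 : x γ = h2.choose := by
      change pt s task γ = _
      rw [pt_eq, nx, dif_pos h2]
    rw [h3]
    exact h2.choose_spec.1
  refine ⟨Ioo (0 : ℝ) 1 ∩ range x, fun hmeag => ?_, ?_⟩
  · rw [IsMeagre, mem_residual_iff] at hmeag
    obtain ⟨S, hS1, hS2, hS3, hS4⟩ := hmeag
    obtain ⟨V, hV⟩ := (hS3.insert Set.univ).exists_eq_range (Set.insert_nonempty _ _)
    have hV' : ∀ k, IsOpen (V k) ∧ Dense (V k) := by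
      intro k
      have h1 : V k ∈ insert Set.univ S := by rw [hV]; exact ⟨k, rfl⟩
      rcases h1 with h1 | h1
      · rw [h1]; exact ⟨isOpen_univ, dense_univ⟩
      · exact ⟨hS1 _ h1, hS2 _ h1⟩
    obtain ⟨γ, hγ⟩ := htask fun k => ⟨V k, (hV' k).1⟩
    have hγ' : ∀ k, Dense (task γ k).1 := fun k => by rw [hγ]; exact (hV' k).2
    have h2 : x γ ∈ ⋂₀ S := by
      intro O hO
      have h3 : O ∈ range V := by rw [← hV]; exact Or.inr hO
      obtain ⟨k, rfl⟩ := h3
      have h4 := (hx γ (hx2 γ hγ')).2.1 k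
      rw [hγ] at h4
      exact h4
    exact hS4 h2 ⟨hx2 γ hγ', γ, rfl⟩
  · intro e F
    induction F using Finset.strongInduction with
    | H F ih =>
    intro hFX hne hcard
    have hidx : ∀ y : ℝ, ∃ γ : Λ, y ∈ F → x γ = y := by
      intro y
      by_cases hy : y ∈ F
      · obtain ⟨γ, hγ⟩ := (hFX hy).2
        exact ⟨γ, fun _ => hγ⟩
      · obtain ⟨y0, hy0⟩ := hne
        obtain ⟨γ, hγ⟩ := (hFX hy0).2
        exact ⟨γ, fun h => absurd h hy⟩
    choose idx hidx using hidx
    obtain ⟨y, hy, hmax⟩ := Finset.exists_max_image F idx hne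
    by_cases hF' : (F.erase y).Nonempty
    · have h1 : s.Good e (F.erase y) := by
        refine ih _ (Finset.erase_ssubset hy) ?_ hF' ?_
        · exact fun z hz => hFX (Finset.mem_of_mem_erase hz)
        · exact (Finset.card_le_card (Finset.erase_subset _ _)).trans hcard
      have h2 := (hx (idx y) (by rw [hidx y hy]; exact (hFX hy).1)).2.2.2 e (F.erase y) ?_ hF' ?_ h1
      · rw [hidx y hy, Finset.insert_erase hy] at h2
        exact h2
      · intro z hz
        have hzF : z ∈ F := Finset.mem_of_mem_erase hz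
        have hzy : z ≠ y := Finset.ne_of_mem_erase hz
        refine ⟨(hFX hzF).1, idx z, ?_, hidx z hzF⟩
        refine lt_of_le_of_ne (hmax z hzF) fun h => hzy ?_
        rw [← hidx z hzF, ← hidx y hy, h]
      · have h3 := Finset.card_erase_add_one hy
        omega
    · have h1 : F = {y} := by
        rw [Finset.not_nonempty_iff_eq_empty] at hF'
        rw [← Finset.insert_erase hy, hF']
        rfl
      rw [h1]
      exact s.good_singleton e y

/-- at most `q e` points of the set lie in a translate of a set with small counts -/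
theorem Sys.exists_set' (s : Sys) (P : ℕ → Set ℝ)
    (hP : ∀ e i x t, x - t ∈ P e → s.fl e i x - s.fl e i t ∈ s.KS e i) :
    ∃ X : Set ℝ, ¬ IsMeagre X ∧ ∀ (e : ℕ) (t : ℝ) (F : Finset ℝ), (F : Set ℝ) ⊆ X →
      (∀ x ∈ F, x - t ∈ P e) → F.card ≤ s.q e := by
  classical
  obtain ⟨X, hX1, hX2⟩ := s.exists_set
  refine ⟨X, hX1, fun e t F hF hFt => ?_⟩
  by_contra hcon
  push Not at hcon
  obtain ⟨G, hGF, hGc⟩ := Finset.exists_subset_card_eq (s := F) (n := s.q e + 1) hcon
  have hGne : G.Nonempty := by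
    rw [← Finset.card_pos, hGc]
    omega
  have hgood := hX2 e G (fun x hx => hF (hGF hx)) hGne hGc.le
  obtain ⟨i, hi⟩ := hgood.nonempty
  simp only [Set.mem_ofPred_eq] at hi
  rw [hGc] at hi
  have h1 : s.fl e i t ∈ T (s.KS e i) (G.image (s.fl e i)) := by
    rw [mem_T (hGne.image _)]
    intro c hc
    obtain ⟨x, hx, rfl⟩ := Finset.mem_image.1 hc
    exact hP e i x t (hFt x (hGF hx))
  have h2 : 1 ≤ (T (s.KS e i) (G.image (s.fl e i))).card := Finset.card_pos.2 ⟨_, h1⟩
  have h3 : s.M e i ^ s.q e < s.M e i ^ (s.q e + 1) :=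
    Nat.pow_lt_pow_right (s.two_le_M e i) (by omega)
  nlinarith [Nat.zero_le (s.M e i ^ (s.q e + 1))]

end Pool.Agent.TH724.BD
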