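import Pool.Agent.TH724.BD.Point

/-!
# One step of the tree: a leaf is replaced by two leaves
-/

set_option autoImplicit false

namespace Pool.Agent.TH724.BD

open MeasureTheory Topology Metric

/-- the leaves, the radius and the thresholds -/
structure St where
  L : List ℝ
  ρ : ℝ
  m : ℕ → ℕ

/-- a valid state -/
structure Sys.Valid (s : Sys) (a : St) : Prop where
  ne : a.L ≠ []
  nodup : a.L.Nodup
  pos : 0 < a.ρ
  unit : ∀ x ∈ a.L, closedBall x a.ρ ⊆ Set.Ioo 0 1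
  disj : ∀ x ∈ a.L, ∀ y ∈ a.L, x ≠ y → Disjoint (closedBall x a.ρ) (closedBall y a.ρ)
  inv : ∀ e, s.Inv a.L.toFinset e (a.m e)
  nint : ∀ x ∈ a.L, ∀ e i (z : ℤ), x * s.B e i ≠ z

/-- the step -/
structure Sys.Rel (s : Sys) (U : Set ℝ) (τ : ℕ) (a b : St) (x0 : ℝ) (t : List ℝ)
    (x1 x2 : ℝ) : Prop where
  La : a.L = x0 :: t
  Lb : b.L = t ++ [x1, x2]
  ne : x1 ≠ x2
  sub1 : closedBall x1 b.ρ ⊆ closedBall x0 a.ρ ∩ U
  sub2 : closedBall x2 b.ρ ⊆ closedBall x0 a.ρ ∩ U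
  half : b.ρ ≤ a.ρ / 2
  lt : ∀ e, a.m e < b.m e
  fl : ∀ e ≤ τ, ∀ i < b.m e, ∀ z ∈ b.L, ∀ y ∈ closedBall z b.ρ, s.fl e i y = s.fl e i z

theorem ev_ball {P : ℝ → Prop} {z : ℝ} (h : ∀ᶠ y in 𝓝 z, P y) :
    ∀ᶠ r in 𝓝[>] (0 : ℝ), ∀ y ∈ closedBall z r, P y := by
  obtain ⟨ε, hε, h⟩ := Metric.eventually_nhds_iff_ball.1 h
  filter_upwards [Ioo_mem_nhdsGT hε] with r hr y hy
  exact h y (lt_of_le_of_lt hy hr.2)

theorem Sys.fl_ev (s : Sys) {z : ℝ} {e i : ℕ} (hz : ∀ n : ℤ, z * s.B e i ≠ n) :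
    ∀ᶠ y in 𝓝 z, s.fl e i y = s.fl e i z := by
  have h1 : (⌊z * s.B e i⌋ : ℝ) < z * s.B e i :=
    lt_of_le_of_ne (Int.floor_le _) (hz _).symm
  have h2 : z * s.B e i < ⌊z * s.B e i⌋ + 1 := Int.lt_floor_add_one _
  have h3 : Filter.Tendsto (fun y : ℝ => y * s.B e i) (𝓝 z) (𝓝 (z * s.B e i)) :=
    (continuous_id.mul continuous_const).tendsto z
  filter_upwards [h3.eventually (Ioo_mem_nhds h1 h2)] with y hy
  rw [Sys.fl, Sys.fl, Int.floor_eq_iff]
  exact ⟨hy.1.le, hy.2⟩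

theorem Sys.step (s : Sys) {U : Set ℝ} (hU : IsOpen U) (hU' : Dense U) (τ : ℕ) {a : St}
    (ha : s.Valid a) : ∃ b x0 t x1 x2, s.Valid b ∧ s.Rel U τ a b x0 t x1 x2 := by
  classical
  obtain ⟨x0, t, hL⟩ : ∃ x0 t, a.L = x0 :: t := List.exists_cons_of_ne_nil ha.ne
  have hx0 : x0 ∈ a.L := by rw [hL]; exact List.mem_cons_self
  obtain ⟨w, hw1, hw2⟩ := hU'.inter_open_nonempty (ball x0 a.ρ) isOpen_ball
    ⟨x0, mem_ball_self ha.pos⟩
  obtain ⟨ε, hε, hball⟩ := Metric.isOpen_iff.1 (isOpen_ball.inter hU) w ⟨hw1, hw2⟩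
  have hIoo : ∀ y, w - ε < y → y < w + ε → y ∈ ball w ε := by
    intro y h1 h2
    rw [mem_ball, Real.dist_eq, abs_lt]
    constructor <;> linarith
  have h01 : ∀ y, w - ε < y → y < w + ε → 0 < y ∧ y < 1 := by
    intro y h1 h2
    exact ha.unit x0 hx0 (ball_subset_closedBall (hball (hIoo y h1 h2)).1)
  obtain ⟨x1, hx1, hx1S, hx1n, m1, hm1, hi1⟩ := s.new_point ha.inv
    (show w - ε / 2 < w by linarith) (h01 _ (by linarith) (by linarith)).1.le
    (h01 _ (by linarith) (by linarith)).2.le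
  obtain ⟨x2, hx2, hx2S, hx2n, m2, hm2, hi2⟩ := s.new_point hi1
    (show w < w + ε / 2 by linarith) (h01 _ (by linarith) (by linarith)).1.le
    (h01 _ (by linarith) (by linarith)).2.le
  have hx1b : x1 ∈ ball w ε := hIoo _ (by linarith [hx1.1]) (by linarith [hx1.2])
  have hx2b : x2 ∈ ball w ε := hIoo _ (by linarith [hx2.1]) (by linarith [hx2.2])
  have hx12 : x1 ≠ x2 := fun h => hx2S (by rw [h]; exact Finset.mem_insert_self _ _)
  have hx1L : x1 ∉ a.L := fun h => hx1S (List.mem_toFinset.2 h)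
  have hx2L : x2 ∉ a.L := fun h => hx2S (Finset.mem_insert_of_mem (List.mem_toFinset.2 h))
  set L' : List ℝ := t ++ [x1, x2] with hL'
  have hmem : ∀ z ∈ L', z ∈ t ∨ z = x1 ∨ z = x2 := by
    intro z hz
    simpa [hL'] using hz
  have htL : ∀ z ∈ t, z ∈ a.L := by
    intro z hz
    rw [hL]
    exact List.mem_cons_of_mem _ hz
  have hnint : ∀ x ∈ L', ∀ e i (z : ℤ), x * s.B e i ≠ z := by
    intro z hz
    rcases hmem z hz with h | h | h
    · exact ha.nint z (htL z h)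
    · rw [h]; exact hx1n
    · rw [h]; exact hx2n
  have hsubF : L'.toFinset ⊆ insert x2 (insert x1 a.L.toFinset) := by
    intro z hz
    rcases hmem z (List.mem_toFinset.1 hz) with h | h | h
    · exact Finset.mem_insert_of_mem (Finset.mem_insert_of_mem (List.mem_toFinset.2 (htL z h)))
    · rw [h]; exact Finset.mem_insert_of_mem (Finset.mem_insert_self _ _)
    · rw [h]; exact Finset.mem_insert_self _ _
  let m' : ℕ → ℕ := fun e => m2 e + 1
  -- the radius
  have e1 : ∀ᶠ r in 𝓝[>] (0 : ℝ), 0 < r ∧ r ≤ a.ρ / 2 := by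
    filter_upwards [Ioo_mem_nhdsGT (half_pos ha.pos)] with r hr
    exact ⟨hr.1, hr.2.le⟩
  have e2 : ∀ᶠ r in 𝓝[>] (0 : ℝ), ∀ y ∈ closedBall x1 r, y ∈ ball w ε :=
    ev_ball (isOpen_ball.mem_nhds hx1b)
  have e3 : ∀ᶠ r in 𝓝[>] (0 : ℝ), ∀ y ∈ closedBall x2 r, y ∈ ball w ε :=
    ev_ball (isOpen_ball.mem_nhds hx2b)
  have e4 : ∀ᶠ r in 𝓝[>] (0 : ℝ), ∀ z ∈ L'.toFinset, ∀ z' ∈ L'.toFinset, z ≠ z' →
      Disjoint (closedBall z r) (closedBall z' r) := by
    rw [Filter.eventually_all_finset]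
    intro z _
    rw [Filter.eventually_all_finset]
    intro z' _
    by_cases hzz : z = z'
    · exact Filter.Eventually.of_forall fun r h => absurd hzz h
    · have h1 : 0 < dist z z' / 2 := half_pos (dist_pos.2 hzz)
      filter_upwards [Ioo_mem_nhdsGT h1] with r hr _
      refine closedBall_disjoint_closedBall ?_
      linarith [hr.2]
  have e5 : ∀ᶠ r in 𝓝[>] (0 : ℝ), ∀ e ∈ Finset.range (τ + 1), ∀ i ∈ Finset.range (m' e),
      ∀ z ∈ L'.toFinset, ∀ y ∈ closedBall z r, s.fl e i y = s.fl e i z := by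
    rw [Filter.eventually_all_finset]
    intro e _
    rw [Filter.eventually_all_finset]
    intro i _
    rw [Filter.eventually_all_finset]
    intro z hz
    exact ev_ball (s.fl_ev (hnint z (List.mem_toFinset.1 hz) e i))
  obtain ⟨r, ⟨hr0, hr1⟩, hr2, hr3, hr4, hr5⟩ :=
    (e1.and (e2.and (e3.and (e4.and e5)))).exists
  refine ⟨⟨L', r, m'⟩, x0, t, x1, x2, ?_, ?_⟩
  · refine ⟨by simp [hL'], ?_, hr0, ?_, ?_, ?_, hnint⟩
    · have hnd : (x0 :: t).Nodup := hL ▸ ha.nodup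
      have h1 : t.Nodup := (List.nodup_cons.1 hnd).2
      rw [hL', List.nodup_append]
      refine ⟨h1, by simp [hx12], ?_⟩
      intro z hz z' hz' hzz
      have h2 : z' = x1 ∨ z' = x2 := by simpa using hz'
      rcases h2 with h2 | h2
      · exact hx1L (by rw [← h2, ← hzz]; exact htL z hz)
      · exact hx2L (by rw [← h2, ← hzz]; exact htL z hz)
    · intro z hz y hy
      rcases hmem z hz with h | h | h
      · refine ha.unit z (htL z h) (closedBall_subset_closedBall ?_ hy)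
        change r ≤ a.ρ
        linarith [ha.pos]
      · have h2 : y ∈ ball w ε := hr2 y (by rw [← h]; exact hy)
        exact ha.unit x0 hx0 (ball_subset_closedBall (hball h2).1)
      · have h2 : y ∈ ball w ε := hr3 y (by rw [← h]; exact hy)
        exact ha.unit x0 hx0 (ball_subset_closedBall (hball h2).1)
    · intro z hz z' hz' hne
      exact hr4 z (List.mem_toFinset.2 hz) z' (List.mem_toFinset.2 hz') hne
    · intro e
      exact Sys.inv_mono (hi2 e) hsubF (Nat.le_succ _)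
  · refine ⟨hL, rfl, hx12, ?_, ?_, hr1, ?_, ?_⟩
    · intro y hy
      have h2 := hball (hr2 y hy)
      exact ⟨ball_subset_closedBall h2.1, h2.2⟩
    · intro y hy
      have h2 := hball (hr3 y hy)
      exact ⟨ball_subset_closedBall h2.1, h2.2⟩
    · intro e
      have h1 := hm1 e
      have h2 := hm2 e
      change a.m e < m2 e + 1
      omega
    · intro e he i hi z hz
      exact hr5 e (Finset.mem_range.2 (by omega)) i (Finset.mem_range.2 hi) z
        (List.mem_toFinset.2 hz)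

/-- the first state -/
theorem Sys.start (s : Sys) : ∃ a : St, s.Valid a := by
  classical
  obtain ⟨x, hx, _, hxn, m', _, hi⟩ := s.new_point (S := ∅) (m := fun _ => 0)
    (fun e => s.inv_empty e) (show (1 / 4 : ℝ) < 3 / 4 by norm_num) (by norm_num) (by norm_num)
  refine ⟨⟨[x], 1 / 8, m'⟩, by simp, by simp, by norm_num, ?_, ?_, ?_, ?_⟩
  · intro z hz y hy
    have hz' : z = x := by simpa using hz
    subst hz'
    change y ∈ closedBall z (1 / 8) at hy
    rw [mem_closedBall, Real.dist_eq, abs_le] at hy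
    exact ⟨by linarith [hx.1, hy.1], by linarith [hx.2, hy.2]⟩
  · intro z hz z' hz' hne
    have h1 : z = x := by simpa using hz
    have h2 : z' = x := by simpa using hz'
    exact absurd (h1.trans h2.symm) hne
  · intro e
    simpa using hi e
  · intro z hz
    have h1 : z = x := by simpa using hz
    rw [h1]
    exact hxn

end Pool.Agent.TH724.BD
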