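import Pool.Agent.TH724.BD.Box

/-!
# The middle-thirds set
-/

set_option autoImplicit false

namespace Pool.Agent.TH724.BD

open Set Topology Pool.Agent.H458R5

theorem LowerBoxDimLtOne.mono {K L : Set ℝ} (h : L ⊆ K) (hK : LowerBoxDimLtOne K) :
    LowerBoxDimLtOne L := by
  obtain ⟨s, hs, h1⟩ := hK
  refine ⟨s, hs, fun ε hε => ?_⟩
  obtain ⟨δ, h2, h3, F, h4, h5⟩ := h1 ε hε
  exact ⟨δ, h2, h3, F, h4, h.trans h5⟩

theorem LowerBoxDimLtOne.locallyBox {K : Set ℝ} (hK : LowerBoxDimLtOne K) : LocallyBox K :=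
  fun O hO hne => ⟨O, Subset.rfl, hO, hne, hK.mono inter_subset_left⟩

theorem pre_cover (n : ℕ) : ∃ F : Finset ℝ, F.card ≤ 2 ^ n ∧
    preCantorSet n ⊆ ⋃ c ∈ F, Icc c (c + (1 / 3) ^ n) := by
  classical
  induction n with
  | zero => exact ⟨{0}, by simp, by simp⟩
  | succ n ih =>
    obtain ⟨F, hF1, hF2⟩ := ih
    refine ⟨F.image (fun c => c / 3) ∪ F.image (fun c => (2 + c) / 3), ?_, ?_⟩
    · refine (Finset.card_union_le _ _).trans ?_
      have h1 := Finset.card_image_le (s := F) (f := fun c : ℝ => c / 3)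
      have h2 := Finset.card_image_le (s := F) (f := fun c : ℝ => (2 + c) / 3)
      rw [pow_succ]
      omega
    · rw [preCantorSet_succ]
      rintro _ (⟨x, hx, rfl⟩ | ⟨x, hx, rfl⟩)
      · have h1 := hF2 hx
        simp only [mem_iUnion, mem_Icc, exists_prop] at h1 ⊢
        obtain ⟨c, hc, h2, h3⟩ := h1
        refine ⟨c / 3, Finset.mem_union_left _ (Finset.mem_image_of_mem _ hc), ?_, ?_⟩
        · linarith
        · rw [pow_succ]; linarith
      · have h1 := hF2 hx
        simp only [mem_iUnion, mem_Icc, exists_prop] at h1 ⊢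
        obtain ⟨c, hc, h2, h3⟩ := h1
        refine ⟨(2 + c) / 3, Finset.mem_union_right _ (Finset.mem_image_of_mem _ hc), ?_, ?_⟩
        · linarith
        · rw [pow_succ]; linarith

theorem box_cantorSet : LowerBoxDimLtOne cantorSet := by
  refine ⟨Real.logb 3 2, ?_, fun ε hε => ?_⟩
  · rw [Real.logb_lt_iff_lt_rpow (by norm_num) (by norm_num), Real.rpow_one]
    norm_num
  · obtain ⟨n, hn⟩ := exists_pow_lt_of_lt_one hε (show (1 / 3 : ℝ) < 1 by norm_num)
    obtain ⟨F, hF1, hF2⟩ := pre_cover n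
    refine ⟨(1 / 3) ^ n, by positivity, hn, F, ?_, (iInter_subset _ n).trans hF2⟩
    have h1 : ((1 / 3 : ℝ) ^ n) ^ (-Real.logb 3 2) = 2 ^ n := by
      rw [one_div, inv_pow, Real.rpow_neg (by positivity), Real.inv_rpow (by positivity), inv_inv,
        ← Real.rpow_natCast, ← Real.rpow_mul (by norm_num), mul_comm, Real.rpow_mul (by norm_num),
        Real.rpow_logb (by norm_num) (by norm_num) (by norm_num), Real.rpow_natCast]
    rw [h1]
    exact_mod_cast hF1

theorem isCantorSet_cantorSet : IsCantorSet cantorSet := ⟨cantorSetHomeomorphNatToBool⟩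

theorem smallTraces_cantorSet : SmallTraces cantorSet :=
  smallTraces_of_locallyBox isCantorSet_cantorSet box_cantorSet.locallyBox

end Pool.Agent.TH724.BD
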