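import Pool.Agent.TH724.BD.Step

/-!
# The tree and its perfect set
-/

set_option autoImplicit false

namespace Pool.Agent.TH724.BD

open MeasureTheory Topology Metric

/-- the union of the balls of a state -/
def St.U (a : St) : Set ℝ := {y | ∃ z ∈ a.L, y ∈ closedBall z a.ρ}

theorem Sys.exists_seq (s : Sys) {W : ℕ → Set ℝ} (hW : ∀ k, IsOpen (W k))
    (hW' : ∀ k, Dense (W k)) : ∃ a : ℕ → St, (∀ k, s.Valid (a k)) ∧
      ∀ k, ∃ x0 t x1 x2, s.Rel (W k) k (a k) (a (k + 1)) x0 t x1 x2 := by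
  obtain ⟨a0, h0⟩ := s.start
  have hstep : ∀ k (a : {a : St // s.Valid a}), ∃ b : {a : St // s.Valid a},
      ∃ x0 t x1 x2, s.Rel (W k) k a.1 b.1 x0 t x1 x2 := by
    intro k a
    obtain ⟨b, x0, t, x1, x2, hb, hr⟩ := s.step (hW k) (hW' k) k a.2
    exact ⟨⟨b, hb⟩, x0, t, x1, x2, hr⟩
  choose nx hnx using hstep
  let A : ℕ → {a : St // s.Valid a} := fun k => Nat.rec ⟨a0, h0⟩ (fun k a => nx k a) k
  exact ⟨fun k => (A k).1, fun k => (A k).2, fun k => hnx k (A k)⟩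

section

variable {s : Sys} {W : ℕ → Set ℝ} {a : ℕ → St}

theorem rel_sub {U : Set ℝ} {τ : ℕ} {a b : St} {x0 : ℝ} {t : List ℝ} {x1 x2 : ℝ}
    (hb : 0 < b.ρ) (h : s.Rel U τ a b x0 t x1 x2) (z : ℝ) (hz : z ∈ b.L) :
    ∃ z' ∈ a.L, closedBall z b.ρ ⊆ closedBall z' a.ρ := by
  have h1 : z ∈ t ∨ z = x1 ∨ z = x2 := by
    rw [h.Lb] at hz
    simpa using hz
  rcases h1 with h1 | h1 | h1
  · refine ⟨z, by rw [h.La]; exact List.mem_cons_of_mem _ h1, closedBall_subset_closedBall ?_⟩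
    have h2 := h.half
    linarith
  · rw [h1]
    exact ⟨x0, by rw [h.La]; exact List.mem_cons_self, fun y hy => (h.sub1 hy).1⟩
  · rw [h1]
    exact ⟨x0, by rw [h.La]; exact List.mem_cons_self, fun y hy => (h.sub2 hy).1⟩

theorem anti (hv : ∀ k, s.Valid (a k))
    (hr : ∀ k, ∃ x0 t x1 x2, s.Rel (W k) k (a k) (a (k + 1)) x0 t x1 x2) :
    Antitone fun k => (a k).U := by
  refine antitone_nat_of_succ_le fun k => ?_
  rintro y ⟨z, hz, hy⟩
  obtain ⟨x0, t, x1, x2, h⟩ := hr k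
  obtain ⟨z', hz', hsub⟩ := rel_sub (hv (k + 1)).pos h z hz
  exact ⟨z', hz', hsub hy⟩

/-- the perfect set -/
def PP (a : ℕ → St) : Set ℝ := ⋂ k, (a k).U

theorem exists_mem_PP (hv : ∀ k, s.Valid (a k))
    (hr : ∀ k, ∃ x0 t x1 x2, s.Rel (W k) k (a k) (a (k + 1)) x0 t x1 x2)
    (i : ℕ) (z : ℝ) (hz : z ∈ (a i).L) : ∃ y ∈ PP a, y ∈ closedBall z (a i).ρ := by
  have hnx : ∀ j (z : {z // z ∈ (a j).L}), ∃ z' : {z // z ∈ (a (j + 1)).L},
      closedBall z'.1 (a (j + 1)).ρ ⊆ closedBall z.1 (a j).ρ := by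
    rintro j ⟨z, hz⟩
    obtain ⟨x0, t, x1, x2, h⟩ := hr j
    have h1 : z = x0 ∨ z ∈ t := by
      rw [h.La] at hz
      simpa using hz
    rcases h1 with h1 | h1
    · refine ⟨⟨x1, by rw [h.Lb]; simp⟩, fun y hy => ?_⟩
      change y ∈ closedBall z (a j).ρ
      rw [h1]
      exact (h.sub1 hy).1
    · refine ⟨⟨z, by rw [h.Lb]; simp [h1]⟩, closedBall_subset_closedBall ?_⟩
      have h2 := h.half
      have h3 := (hv (j + 1)).pos
      linarith
  choose nx hnx using hnx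
  let c : ∀ n, {z // z ∈ (a (i + n)).L} := fun n => Nat.rec ⟨z, hz⟩ (fun n c => nx (i + n) c) n
  have hc : ∀ n, closedBall (c (n + 1)).1 (a (i + (n + 1))).ρ ⊆
      closedBall (c n).1 (a (i + n)).ρ := fun n => hnx (i + n) (c n)
  obtain ⟨y, hy⟩ := IsCompact.nonempty_iInter_of_sequence_nonempty_isCompact_isClosed
    (fun n => closedBall (c n).1 (a (i + n)).ρ) hc
    (fun n => ⟨(c n).1, mem_closedBall_self (hv _).pos.le⟩) (isCompact_closedBall _ _)
    (fun n => isClosed_closedBall)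
  rw [Set.mem_iInter] at hy
  refine ⟨y, Set.mem_iInter.2 fun j => ?_, hy 0⟩
  have h1 : y ∈ (a (i + j)).U := ⟨(c j).1, (c j).2, hy j⟩
  exact anti hv hr (show j ≤ i + j by omega) h1

/-- every point of the perfect set passes through a leaf which is replaced -/
theorem proc (hv : ∀ k, s.Valid (a k))
    (hr : ∀ k, ∃ x0 t x1 x2, s.Rel (W k) k (a k) (a (k + 1)) x0 t x1 x2)
    {y : ℝ} (hy : y ∈ PP a) (p : ℕ) : ∀ (i : ℕ) (z : ℝ), (a i).L[p]? = some z →
      y ∈ closedBall z (a i).ρ → ∃ j ≥ i, ∃ x0 t x1 x2,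
        s.Rel (W j) j (a j) (a (j + 1)) x0 t x1 x2 ∧
        (y ∈ closedBall x1 (a (j + 1)).ρ ∨ y ∈ closedBall x2 (a (j + 1)).ρ) := by
  induction p with
  | zero =>
    intro i z hz hyz
    obtain ⟨x0, t, x1, x2, h⟩ := hr i
    refine ⟨i, le_rfl, x0, t, x1, x2, h, ?_⟩
    have hzx : z = x0 := by
      rw [h.La] at hz
      simpa using hz.symm
    obtain ⟨z', hz', hyz'⟩ := Set.mem_iInter.1 hy (i + 1)
    have h1 : z' ∈ t ∨ z' = x1 ∨ z' = x2 := by
      rw [h.Lb] at hz'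
      simpa using hz'
    rcases h1 with h1 | h1 | h1
    · exfalso
      have hz'L : z' ∈ (a i).L := by rw [h.La]; exact List.mem_cons_of_mem _ h1
      have hx0L : x0 ∈ (a i).L := by rw [h.La]; exact List.mem_cons_self
      have hne : z' ≠ x0 := by
        intro h2
        have h3 := (hv i).nodup
        rw [h.La, List.nodup_cons] at h3
        exact h3.1 (h2 ▸ h1)
      have h4 : y ∈ closedBall z' (a i).ρ := by
        refine closedBall_subset_closedBall ?_ hyz'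
        have h2 := h.half
        have h3 := (hv (i + 1)).pos
        linarith
      rw [hzx] at hyz
      exact Set.disjoint_left.1 ((hv i).disj z' hz'L x0 hx0L hne) h4 hyz
    · left; rw [← h1]; exact hyz'
    · right; rw [← h1]; exact hyz'
  | succ p ih =>
    intro i z hz hyz
    obtain ⟨x0, t, x1, x2, h⟩ := hr i
    have hzt : t[p]? = some z := by
      rw [h.La] at hz
      simpa using hz
    have hztm : z ∈ t := List.mem_of_getElem? hzt
    have hzL : z ∈ (a i).L := by rw [h.La]; exact List.mem_cons_of_mem _ hztm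
    have hx0L : x0 ∈ (a i).L := by rw [h.La]; exact List.mem_cons_self
    have hzne : z ≠ x0 := by
      intro h2
      have h3 := (hv i).nodup
      rw [h.La, List.nodup_cons] at h3
      exact h3.1 (h2 ▸ hztm)
    have hz2 : (a (i + 1)).L[p]? = some z := by
      rw [h.Lb, List.getElem?_append_left]
      · exact hzt
      · exact (List.getElem?_eq_some_iff.1 hzt).1
    obtain ⟨z', hz', hyz'⟩ := Set.mem_iInter.1 hy (i + 1)
    have h1 : z' ∈ t ∨ z' = x1 ∨ z' = x2 := by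
      rw [h.Lb] at hz'
      simpa using hz'
    have hyx0 : z' = x1 ∨ z' = x2 → False := by
      intro h2
      have h3 : y ∈ closedBall x0 (a i).ρ := by
        rcases h2 with h2 | h2
        · rw [h2] at hyz'; exact (h.sub1 hyz').1
        · rw [h2] at hyz'; exact (h.sub2 hyz').1
      exact Set.disjoint_left.1 ((hv i).disj z hzL x0 hx0L hzne) hyz h3
    have h5 : y ∈ closedBall z (a (i + 1)).ρ := by
      rcases h1 with h1 | h1
      · by_cases hzz : z' = z
        · rw [← hzz]; exact hyz'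
        · exfalso
          have hz'L : z' ∈ (a i).L := by rw [h.La]; exact List.mem_cons_of_mem _ h1
          have h4 : y ∈ closedBall z' (a i).ρ := by
            refine closedBall_subset_closedBall ?_ hyz'
            have h2 := h.half
            have h3 := (hv (i + 1)).pos
            linarith
          exact Set.disjoint_left.1 ((hv i).disj z' hz'L z hzL hzz) h4 hyz
      · exact (hyx0 h1).elim
    obtain ⟨j, hj, r⟩ := ih (i + 1) z hz2 h5
    exact ⟨j, by omega, r⟩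

theorem proc' (hv : ∀ k, s.Valid (a k))
    (hr : ∀ k, ∃ x0 t x1 x2, s.Rel (W k) k (a k) (a (k + 1)) x0 t x1 x2)
    {y : ℝ} (hy : y ∈ PP a) (i : ℕ) : ∃ j ≥ i, ∃ x0 t x1 x2,
        s.Rel (W j) j (a j) (a (j + 1)) x0 t x1 x2 ∧
        (y ∈ closedBall x1 (a (j + 1)).ρ ∨ y ∈ closedBall x2 (a (j + 1)).ρ) := by
  obtain ⟨z, hz, hyz⟩ := Set.mem_iInter.1 hy i
  obtain ⟨p, hp⟩ := List.mem_iff_getElem?.1 hz
  exact proc hv hr hy p i z hp hyz

theorem rho_le (hv : ∀ k, s.Valid (a k))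
    (hr : ∀ k, ∃ x0 t x1 x2, s.Rel (W k) k (a k) (a (k + 1)) x0 t x1 x2) :
    Filter.Tendsto (fun k => (a k).ρ) Filter.atTop (𝓝 0) := by
  have h1 : ∀ k, (a k).ρ ≤ (a 0).ρ * (1 / 2) ^ k := by
    intro k
    induction k with
    | zero => simp
    | succ k ih =>
      obtain ⟨x0, t, x1, x2, h⟩ := hr k
      have h2 := h.half
      rw [pow_succ]
      linarith
  have h2 : Filter.Tendsto (fun k : ℕ => (a 0).ρ * (1 / 2 : ℝ) ^ k) Filter.atTop
      (𝓝 ((a 0).ρ * 0)) :=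
    (tendsto_pow_atTop_nhds_zero_of_lt_one (by norm_num) (by norm_num)).const_mul _
  rw [mul_zero] at h2
  exact squeeze_zero (fun k => (hv k).pos.le) h1 h2

theorem isClosed_U (b : St) : IsClosed b.U := by
  classical
  have h1 : b.U = ⋃ z ∈ b.L.toFinset, closedBall z b.ρ := by
    ext y
    simp [St.U]
  rw [h1]
  exact isClosed_biUnion_finset fun z _ => isClosed_closedBall

theorem perfect_PP (hv : ∀ k, s.Valid (a k))
    (hr : ∀ k, ∃ x0 t x1 x2, s.Rel (W k) k (a k) (a (k + 1)) x0 t x1 x2) : Perfect (PP a) := by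
  refine ⟨isClosed_iInter fun k => isClosed_U _, fun y hy => ?_⟩
  rw [accPt_iff_nhds]
  intro V hV
  obtain ⟨ε, hε, hball⟩ := Metric.mem_nhds_iff.1 hV
  obtain ⟨i, hi⟩ := Filter.eventually_atTop.1
    ((rho_le hv hr).eventually (gt_mem_nhds (show 0 < ε / 2 by linarith)))
  obtain ⟨j, hj, x0, t, x1, x2, h, hy12⟩ := proc' hv hr hy i
  have hx1L : x1 ∈ (a (j + 1)).L := by rw [h.Lb]; simp
  have hx2L : x2 ∈ (a (j + 1)).L := by rw [h.Lb]; simp
  have hρ := hi j hj
  have hkey : ∀ u v : ℝ, u ∈ (a (j + 1)).L → v ∈ (a (j + 1)).L → u ≠ v →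
      closedBall u (a (j + 1)).ρ ⊆ closedBall x0 (a j).ρ →
      closedBall v (a (j + 1)).ρ ⊆ closedBall x0 (a j).ρ →
      y ∈ closedBall u (a (j + 1)).ρ → ∃ y' ∈ V ∩ PP a, y' ≠ y := by
    intro u v hu hv' huv hsu hsv hyu
    obtain ⟨y', hy'P, hy'v⟩ := exists_mem_PP hv hr (j + 1) v hv'
    refine ⟨y', ⟨hball ?_, hy'P⟩, fun hyy => ?_⟩
    · have h1 := hsu hyu
      have h2 := hsv hy'v
      rw [mem_closedBall] at h1 h2
      rw [mem_ball]
      calc dist y' y ≤ dist y' x0 + dist x0 y := dist_triangle _ _ _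
        _ ≤ (a j).ρ + (a j).ρ := by
            refine add_le_add h2 ?_
            rw [dist_comm]; exact h1
        _ < ε := by linarith
    · rw [hyy] at hy'v
      exact Set.disjoint_left.1 ((hv (j + 1)).disj u hu v hv' huv) hyu hy'v
  rcases hy12 with h1 | h1
  · exact hkey x1 x2 hx1L hx2L h.ne (fun z hz => (h.sub1 hz).1) (fun z hz => (h.sub2 hz).1) h1
  · exact hkey x2 x1 hx2L hx1L h.ne.symm (fun z hz => (h.sub2 hz).1)
      (fun z hz => (h.sub1 hz).1) h1

/-- **The key property of the perfect set.** -/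
theorem key (hv : ∀ k, s.Valid (a k))
    (hr : ∀ k, ∃ x0 t x1 x2, s.Rel (W k) k (a k) (a (k + 1)) x0 t x1 x2)
    (e : ℕ) (A : ℕ → Finset ℤ) (k : ℕ) (hk : k ≤ s.q e) (hA : ∀ i, A i ∈ s.AA e i)
    (hG : {i | (T (s.KS e i) (A i)).card * s.M e i ^ k ≤ s.M e i ^ s.q e}.Infinite) :
    {y ∈ PP a | ¬ {i | (T (s.KS e i) (insert (s.fl e i y) (A i))).card * s.M e i ^ (k + 1) ≤
      s.M e i ^ s.q e}.Infinite}.Finite := by
  classical
  by_contra hinf
  obtain ⟨Y, hYsub, hYcard⟩ := Set.Infinite.exists_subset_card_eq hinf (s.Q e + 3)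
  have hYP : ∀ y ∈ Y, y ∈ PP a := fun y hy => (hYsub hy).1
  have hYf : ∀ y ∈ Y, {i | (T (s.KS e i) (insert (s.fl e i y) (A i))).card *
      s.M e i ^ (k + 1) ≤ s.M e i ^ s.q e}.Finite := fun y hy => Set.not_infinite.1 (hYsub hy).2
  -- beyond `N` no point of `Y` is good
  have hN : ∀ᶠ i in Filter.atTop, ∀ y ∈ Y, ¬ (T (s.KS e i) (insert (s.fl e i y) (A i))).card *
      s.M e i ^ (k + 1) ≤ s.M e i ^ s.q e := by
    rw [Filter.eventually_all_finset]
    intro y hy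
    have h1 := (hYf y hy).compl_mem_cofinite
    rw [Nat.cofinite_eq_atTop] at h1
    exact h1
  obtain ⟨N, hN⟩ := Filter.eventually_atTop.1 hN
  -- beyond `τ0` the balls are small
  have hτ : ∀ᶠ τ in Filter.atTop, ∀ y ∈ Y, ∀ y' ∈ Y, y ≠ y' → 2 * (a τ).ρ < dist y y' := by
    rw [Filter.eventually_all_finset]
    intro y _
    rw [Filter.eventually_all_finset]
    intro y' _
    by_cases hyy : y = y'
    · exact Filter.Eventually.of_forall fun τ h => absurd hyy h
    · have h1 : 0 < dist y y' / 2 := half_pos (dist_pos.2 hyy)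
      filter_upwards [(rho_le hv hr).eventually (gt_mem_nhds h1)] with τ h2 _
      linarith
  obtain ⟨τ0, hτ0⟩ := Filter.eventually_atTop.1 (hτ.and (Filter.eventually_ge_atTop e))
  obtain ⟨i, hiG, hiN⟩ := hG.exists_gt (max N ((a τ0).m e))
  have hmono : StrictMono fun τ => (a τ).m e := by
    refine strictMono_nat_of_lt_succ fun τ => ?_
    obtain ⟨x0, t, x1, x2, h⟩ := hr τ
    exact h.lt e
  have hex : ∃ τ, i < (a (τ + 1)).m e := by
    refine ⟨i, ?_⟩
    have h1 := hmono.id_le (i + 1)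
    have h2 : i + 1 ≤ (a (i + 1)).m e := h1
    omega
  obtain ⟨τ, hτ1, hτmin⟩ : ∃ τ, i < (a (τ + 1)).m e ∧ ∀ τ' < τ, ¬ i < (a (τ' + 1)).m e :=
    ⟨Nat.find hex, Nat.find_spec hex, fun τ' h => Nat.find_min hex h⟩
  have him0 : (a τ0).m e ≤ i := le_trans (le_max_right _ _) hiN.le
  have hττ : τ0 ≤ τ := by
    by_contra hlt
    have h1 : (a (τ + 1)).m e ≤ (a τ0).m e := hmono.monotone (by omega)
    omega
  have hmτ : (a τ).m e ≤ i := by
    rcases Nat.eq_zero_or_pos τ with h0 | h0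
    · have h1 : τ0 = τ := by omega
      rw [← h1]; exact him0
    · have h1 := hτmin (τ - 1) (by omega)
      have h2 : τ - 1 + 1 = τ := by omega
      rw [h2] at h1
      exact not_lt.1 h1
  obtain ⟨x0, t, x1, x2, h⟩ := hr τ
  have heτ : e ≤ τ := le_trans (hτ0 τ0 le_rfl).2 hττ
  -- the leaves of the points
  have hleaf : ∀ y : ℝ, ∃ z, y ∈ Y → z ∈ (a (τ + 1)).L ∧ y ∈ closedBall z (a (τ + 1)).ρ := by
    intro y
    by_cases hy : y ∈ Y
    · obtain ⟨z, hz, hyz⟩ := Set.mem_iInter.1 (hYP y hy) (τ + 1)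
      exact ⟨z, fun _ => ⟨hz, hyz⟩⟩
    · exact ⟨0, fun h => absurd h hy⟩
  choose z hz using hleaf
  have hzinj : Set.InjOn z (Y : Set ℝ) := by
    intro y hy y' hy' hzz
    by_contra hne
    have h1 := (hτ0 (τ + 1) (by omega)).1 y hy y' hy' hne
    have h2 := (hz y hy).2
    have h3 := (hz y' hy').2
    rw [← hzz] at h3
    rw [mem_closedBall] at h2 h3
    have h4 : dist y y' ≤ dist y (z y) + dist (z y) y' := dist_triangle _ _ _
    rw [dist_comm (z y) y'] at h4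
    linarith
  set R : Finset ℝ := (Y.image z) \ {x1, x2} with hR
  have hRcard : s.Q e + 1 ≤ R.card := by
    have h1 : (Y.image z).card = s.Q e + 3 := by
      rw [Finset.card_image_of_injOn hzinj, hYcard]
    have h2 : (Y.image z).card - ({x1, x2} : Finset ℝ).card ≤ R.card :=
      Finset.le_card_sdiff _ _
    have h3 : ({x1, x2} : Finset ℝ).card ≤ 2 := Finset.card_le_two
    omega
  have hRL : R ⊆ (a τ).L.toFinset := by
    intro x hx
    rw [hR, Finset.mem_sdiff, Finset.mem_image] at hx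
    obtain ⟨⟨y, hy, rfl⟩, hx2⟩ := hx
    have h1 := (hz y hy).1
    rw [h.Lb] at h1
    have h2 : z y ∈ t ∨ z y = x1 ∨ z y = x2 := by simpa using h1
    rcases h2 with h2 | h2 | h2
    · rw [List.mem_toFinset, h.La]
      exact List.mem_cons_of_mem _ h2
    · exact absurd (by simp [h2]) hx2
    · exact absurd (by simp [h2]) hx2
  have hcount := (hv τ).inv e i hmτ R hRL k hk
  have hmem : A i ∈ (s.AA e i).filter (fun A => ∀ x ∈ R,
      Bad (s.q e) (s.M e i) (s.KS e i) k A (s.fl e i x)) := by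
    rw [Finset.mem_filter]
    refine ⟨hA i, fun x hx => ?_⟩
    rw [hR, Finset.mem_sdiff, Finset.mem_image] at hx
    obtain ⟨⟨y, hy, rfl⟩, _⟩ := hx
    refine ⟨hiG, ?_⟩
    have h1 : s.fl e i y = s.fl e i (z y) :=
      h.fl e heτ i hτ1 (z y) (hz y hy).1 y (hz y hy).2
    have h2 := hN i (le_trans (le_max_left _ _) hiN.le) y hy
    have hAne : (A i).Nonempty := (Finset.mem_filter.1 (hA i)).2.1
    rw [T_insert hAne, h1] at h2
    exact not_le.1 h2
  have h1 : 1 ≤ ((s.AA e i).filter (fun A => ∀ x ∈ R,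
      Bad (s.q e) (s.M e i) (s.KS e i) k A (s.fl e i x))).card := Finset.card_pos.2 ⟨_, hmem⟩
  have h2 : s.M e i ^ R.card ≤ s.M e i ^ s.Q e :=
    le_trans (by nlinarith [Nat.zero_le (s.M e i ^ R.card)]) hcount
  have h3 : s.M e i ^ s.Q e < s.M e i ^ R.card :=
    Nat.pow_lt_pow_right (s.two_le_M e i) (by omega)
  omega

end

/-- **The scheme.** -/
theorem Sys.scheme (s : Sys) {U : ℕ → Set ℝ} (hU : ∀ k, IsOpen (U k)) (hU' : ∀ k, Dense (U k)) :
    ∃ f : (ℕ → Bool) → ℝ, Function.Injective f ∧ (∀ α, f α ∈ Set.Ioo (0 : ℝ) 1) ∧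
      (∀ α k, f α ∈ U k) ∧
      ∀ (e : ℕ) (A : ℕ → Finset ℤ) (k : ℕ), k ≤ s.q e → (∀ i, A i ∈ s.AA e i) →
        {i | (T (s.KS e i) (A i)).card * s.M e i ^ k ≤ s.M e i ^ s.q e}.Infinite →
        {α | ¬ {i | (T (s.KS e i) (insert (s.fl e i (f α)) (A i))).card *
          s.M e i ^ (k + 1) ≤ s.M e i ^ s.q e}.Infinite}.Finite := by
  classical
  let W : ℕ → Set ℝ := fun k => ⋂ j : Fin (k + 1), U j
  have hW : ∀ k, IsOpen (W k) := fun k => isOpen_iInter_of_finite fun j => hU _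
  have hW' : ∀ k, Dense (W k) := fun k => dense_iInter_of_isOpen (fun j => hU _) fun j => hU' _
  obtain ⟨a, hv, hr⟩ := s.exists_seq hW hW'
  have hP := perfect_PP hv hr
  have hne : (PP a).Nonempty := by
    obtain ⟨z, t, hL⟩ := List.exists_cons_of_ne_nil (hv 0).ne
    obtain ⟨y, hy, _⟩ := exists_mem_PP hv hr 0 z (by rw [hL]; exact List.mem_cons_self)
    exact ⟨y, hy⟩
  obtain ⟨f, hf1, _, hf2⟩ := hP.exists_nat_bool_injection hne
  have hfP : ∀ α, f α ∈ PP a := fun α => hf1 ⟨α, rfl⟩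
  refine ⟨f, hf2, fun α => ?_, fun α k => ?_, fun e A k hk hA hG => ?_⟩
  · obtain ⟨z, hz, hy⟩ := Set.mem_iInter.1 (hfP α) 0
    exact (hv 0).unit z hz hy
  · obtain ⟨j, hj, x0, t, x1, x2, h, hy⟩ := proc' hv hr (hfP α) k
    have h1 : f α ∈ W j := by
      rcases hy with hy | hy
      · exact (h.sub1 hy).2
      · exact (h.sub2 hy).2
    exact Set.mem_iInter.1 h1 ⟨k, by omega⟩
  · have h1 := key hv hr e A k hk hA hG
    refine (h1.preimage (f := f) hf2.injOn).subset ?_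
    intro α hα
    exact ⟨hfP α, hα⟩

end Pool.Agent.TH724.BD
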